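import Pool.Agent.W486.AG.Chr
import Pool.Agent.W374.AG.Code

/-!
ANA: the graph is analytic.
-/

set_option autoImplicit false

namespace Pool.Agent.W486.AG

open MeasureTheory

section helpers

variable {Y : Type} [TopologicalSpace Y]

theorem clo_lt {f g : Y → ℕ} (hf : Continuous f) (hg : Continuous g) :
    IsClosed {y | f y < g y} := by
  have : {y | f y < g y} = {y | f y + 1 ≤ g y} := rfl
  rw [this]
  exact isClosed_le (by fun_prop) hg

theorem ope_lt {f g : Y → ℕ} (hf : Continuous f) (hg : Continuous g) :
    IsOpen {y | f y < g y} := isOpen_lt hf hg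

theorem clo_bool {f : Y → Bool} (hf : Continuous f) (b : Bool) : IsClosed {y | f y = b} :=
  isClosed_eq hf continuous_const

theorem ope_bool {f : Y → Bool} (hf : Continuous f) (b : Bool) : IsOpen {y | f y = b} :=
  (isOpen_discrete {b}).preimage hf

theorem clo_and {p q : Y → Prop} (hp : IsClosed {y | p y}) (hq : IsClosed {y | q y}) :
    IsClosed {y | p y ∧ q y} := hp.inter hq

theorem clo_or {p q : Y → Prop} (hp : IsClosed {y | p y}) (hq : IsClosed {y | q y}) :
    IsClosed {y | p y ∨ q y} := hp.union hq

theorem clo_all {ι : Type} {p : ι → Y → Prop} (h : ∀ i, IsClosed {y | p i y}) :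
    IsClosed {y | ∀ i, p i y} := by
  have : {y | ∀ i, p i y} = ⋂ i, {y | p i y} := by
    ext y
    simp
  rw [this]
  exact isClosed_iInter h

end helpers

instance polNat2 : PolishSpace (ℕ × ℕ × ℕ) := inferInstance

instance polNat3 : PolishSpace (X × ℕ × ℕ × ℕ) := inferInstance

instance polLab : PolishSpace Lab := inferInstance

instance polTree : PolishSpace (List ℕ → Lab) := inferInstance

theorem c_tl (σ : List ℕ) : Continuous (fun T : List ℕ → Lab => tl (T σ)) :=
  continuous_fst.comp (continuous_apply σ)

theorem c_hd (σ : List ℕ) : Continuous (fun T : List ℕ → Lab => hd (T σ)) :=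
  (continuous_fst.comp continuous_snd).comp (continuous_apply σ)

theorem c_dl (σ : List ℕ) : Continuous (fun T : List ℕ → Lab => dl (T σ)) :=
  (continuous_fst.comp (continuous_snd.comp continuous_snd)).comp (continuous_apply σ)

theorem c_al (σ : List ℕ) : Continuous (fun T : List ℕ → Lab => al (T σ)) :=
  (continuous_fst.comp (continuous_snd.comp (continuous_snd.comp continuous_snd))).comp
    (continuous_apply σ)

theorem c_dp (σ : List ℕ) : Continuous (fun T : List ℕ → Lab => dp (T σ)) :=
  (continuous_snd.comp (continuous_snd.comp (continuous_snd.comp continuous_snd))).comp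
    (continuous_apply σ)

theorem c_uu (σ : List ℕ) (k : ℕ) :
    Continuous (fun T : List ℕ → Lab => uu (fun j => T (σ ++ [j])) k) := by
  rcases k with _ | k
  · exact c_hd (σ ++ [0])
  · exact c_tl (σ ++ [2 * k + 2])

theorem c_code (σ : List ℕ) (k : ℕ) :
    Continuous (fun T : List ℕ → Lab => code (tl (T σ)) (hd (T σ)) k) :=
  (Pool.Agent.W374.AGCode.t_code1 k).comp ((c_tl σ).prodMk (c_hd σ))

theorem c_shift (σ : List ℕ) :
    Continuous (fun T : List ℕ → Lab => shift (dl (T σ)) (tl (T σ))) := by
  apply continuous_to_X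
  intro m
  have h1 : Continuous (fun p : FG × ℕ => p.1 * kill m (FreeGroup.of p.2)) :=
    continuous_of_discreteTopology
  exact h1.comp (((continuous_coord m).comp (c_tl σ)).prodMk (c_dl σ))

theorem closed_node (σ : List ℕ) :
    IsClosed {T : List ℕ → Lab | Node (T σ) (fun j => T (σ ++ [j]))} := by
  unfold Node
  apply clo_and
  · refine clo_all fun m => ?_
    exact isClosed_imp (ope_lt continuous_const (c_dl σ))
      (isClosed_eq ((continuous_coord m).comp (c_tl σ)) ((continuous_coord m).comp (c_hd σ)))
  · apply clo_or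
    · exact clo_and (isClosed_eq (c_dp σ) continuous_const)
        (clo_and (isClosed_eq (c_al σ) (c_dl σ)) (isClosed_eq (c_hd σ) (c_shift σ)))
    · refine clo_and (isClosed_eq (c_dp σ) ((c_dp _).add continuous_const)) ?_
      refine clo_and (isClosed_eq (c_dl σ) (c_dl _)) ?_
      refine clo_and (isClosed_eq (c_tl _) (c_tl _)) ?_
      refine clo_and (clo_lt (c_al _) (c_al _)) ?_
      refine clo_and (isClosed_eq (c_dl _) (c_al _)) ?_
      refine clo_and (isClosed_eq (c_tl _) (c_hd _)) ?_
      refine clo_and (clo_lt (c_al _) (c_dl _)) ?_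
      refine clo_and (clo_all fun k => clo_lt (c_dl _) (c_dl _)) ?_
      refine clo_and (clo_all fun k => isClosed_imp (ope_bool (c_code σ k) true)
        (clo_and (isClosed_eq (c_tl _) (c_hd _))
          (clo_and (isClosed_eq (c_hd _) (c_uu σ k)) (clo_lt (c_al _) (c_dl _))))) ?_
      refine clo_and (clo_all fun k => isClosed_imp (ope_bool (c_code σ k) false)
        (isClosed_eq (c_hd _) (c_uu σ k))) ?_
      exact clo_all fun k => clo_all fun m =>
        isClosed_imp (ope_lt continuous_const (c_dl _))
          (isClosed_eq ((continuous_coord m).comp (c_uu σ k))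
            ((continuous_coord m).comp (c_hd _)))

theorem closed_good : IsClosed {T : List ℕ → Lab | Good T} := by
  unfold Good
  exact clo_all closed_node

theorem ana_edge : AnalyticSet {p : X × X | Edge p.1 p.2} := by
  have h1 : {p : X × X | Edge p.1 p.2} =
      (fun T : List ℕ → Lab => (tl (T []), hd (T []))) '' {T | Good T} := by
    ext ⟨a, b⟩
    constructor
    · rintro ⟨n, Δ, α, T, hT, e⟩
      exact ⟨T, hT, by simp only [e]; rfl⟩
    · rintro ⟨T, hT, e⟩
      simp only [Prod.mk.injEq] at e
      obtain ⟨rfl, rfl⟩ := e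
      exact ⟨_, _, _, T, hT, rfl⟩
  rw [h1]
  exact closed_good.analyticSet.image_of_continuous ((c_tl []).prodMk (c_hd []))

theorem ana : S_ANA := by
  have h1 : {p : X × X | G.Adj p.1 p.2} =
      {p : X × X | p.1 ≠ p.2} ∩ ({p : X × X | Edge p.1 p.2} ∪ {p : X × X | Edge p.2 p.1}) := by
    ext ⟨a, b⟩
    simp only [G, SimpleGraph.fromRel_adj, Set.mem_inter_iff, Set.mem_union]
    rfl
  have h2 : AnalyticSet {p : X × X | Edge p.2 p.1} := by
    have h3 : {p : X × X | Edge p.2 p.1} = Prod.swap '' {p : X × X | Edge p.1 p.2} := by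
      ext ⟨a, b⟩
      constructor
      · intro h; exact ⟨(b, a), h, rfl⟩
      · rintro ⟨⟨c, d⟩, h, e⟩
        simp only [Prod.swap_prod_mk, Prod.mk.injEq] at e
        obtain ⟨rfl, rfl⟩ := e
        exact h
    rw [h3]
    exact ana_edge.image_of_continuous continuous_swap
  have h4 : AnalyticSet ({p : X × X | Edge p.1 p.2} ∪ {p : X × X | Edge p.2 p.1}) := by
    rw [Set.union_eq_iUnion]
    apply AnalyticSet.iUnion
    intro b
    cases b
    · exact h2
    · exact ana_edge
  have h5 : AnalyticSet {p : X × X | p.1 ≠ p.2} := by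
    have h6 : IsOpen {p : X × X | p.1 ≠ p.2} := isOpen_ne_fun continuous_fst continuous_snd
    exact h6.measurableSet.analyticSet
  unfold S_ANA
  rw [h1, Set.inter_eq_iInter]
  apply AnalyticSet.iInter
  intro b
  cases b
  · exact h4
  · exact h5

end Pool.Agent.W486.AG
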