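import Pool.Agent.W486.AG.Tree

/-!
CHR: the graph has no countable measurable colouring.
-/

set_option autoImplicit false

namespace Pool.Agent.W486.AG

open Topology Filter

theorem continuous_to_X {Y : Type} [TopologicalSpace Y] {f : Y → X}
    (h : ∀ m, Continuous (fun y => f y m)) : Continuous f :=
  continuous_induced_rng.2 (continuous_pi h)

/-- inverse of the shift -/
def unshift (c : ℕ) (x : X) : X :=
  ⟨fun m => x m * (kill m (FreeGroup.of c))⁻¹, by
    intro m m' h
    rw [map_mul, map_inv, X.compat x h, kill_kill m m' h]⟩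

theorem unshift_apply (c : ℕ) (x : X) (m : ℕ) :
    unshift c x m = x m * (kill m (FreeGroup.of c))⁻¹ := rfl

theorem continuous_mulR (m : ℕ) (g : FG) : Continuous (fun x : X => x m * g) :=
  (continuous_of_discreteTopology (f := fun a : FG => a * g)).comp (continuous_coord m)

/-- the shift as a homeomorphism -/
def shiftH (c : ℕ) : X ≃ₜ X where
  toFun := shift c
  invFun := unshift c
  left_inv x := X.ext fun m => by rw [unshift_apply, shift_apply, mul_inv_cancel_right]
  right_inv x := X.ext fun m => by rw [shift_apply, unshift_apply, inv_mul_cancel_right]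
  continuous_toFun := continuous_to_X fun m => continuous_mulR m _
  continuous_invFun := continuous_to_X fun m => continuous_mulR m _

/-- basic neighbourhoods -/
theorem exists_nbhd {U : Set X} (hU : IsOpen U) {x : X} (hx : x ∈ U) :
    ∃ m, ∀ y : X, y m = x m → y ∈ U := by
  obtain ⟨O, hO, rfl⟩ := isOpen_induced_iff.1 hU
  obtain ⟨I, u, h1, h2⟩ := isOpen_pi_iff.1 hO _ hx
  refine ⟨I.sup id, fun y hy => h2 ?_⟩
  intro i hi
  have h3 : i ≤ I.sup id := Finset.le_sup (f := id) hi
  have h4 : y i = x i := by rw [← y.compat h3, ← x.compat h3, hy]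
  change y i ∈ u i
  rw [h4]
  exact (h1 i hi).2

theorem isOpen_lvl (x : X) (m : ℕ) : IsOpen {y : X | y m = x m} := by
  have : {y : X | y m = x m} = (fun y : X => y m) ⁻¹' {x m} := rfl
  rw [this]
  exact (isOpen_discrete _).preimage (continuous_coord m)

theorem ne_shift (D : ℕ) (a : X) : a ≠ shift D a := by
  intro h
  have h1 : a D = shift D a D := by rw [← h]
  rw [shift_apply, kill_of, if_pos le_rfl] at h1
  have h2 : (FreeGroup.of D : FG) = 1 := mul_left_cancel (a := a D) (by rw [← h1, mul_one])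
  exact FreeGroup.of_ne_one D h2

theorem adj_shift (D : ℕ) (a : X) : G.Adj a (shift D a) := by
  rw [G, SimpleGraph.fromRel_adj]
  exact ⟨ne_shift D a, Or.inl ⟨0, D, D, E_mk_base D a⟩⟩

instance : Nonempty X := ⟨⟨fun _ => 1, fun _ _ _ => map_one _⟩⟩

theorem chr : S_CHR := by
  rintro ⟨c, hc, hadj⟩
  have h1 : ∀ n, ∃ U : Set X, IsOpen U ∧ (c ⁻¹' {n}) =ᵇ U := fun n =>
    (hc (measurableSet_singleton n)).residualEq_isOpen
  choose U hU hAU using h1
  have hR : ∀ n, {x : X | x ∈ c ⁻¹' {n} ↔ x ∈ U n} ∈ residual X := fun n =>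
    Filter.eventuallyEq_set.1 (hAU n)
  have hRR : (⋂ n, {x : X | x ∈ c ⁻¹' {n} ↔ x ∈ U n}) ∈ residual X :=
    countable_iInter_mem.2 hR
  obtain ⟨x, hx⟩ := (dense_of_mem_residual hRR).nonempty
  have hxU : x ∈ U (c x) := by
    have := Set.mem_iInter.1 hx (c x)
    exact this.1 rfl
  obtain ⟨m, hm⟩ := exists_nbhd (hU (c x)) hxU
  have h2 : (shiftH (m + 1)) ⁻¹' {y : X | y ∈ c ⁻¹' {c x} ↔ y ∈ U (c x)} ∈ residual X :=
    tendsto_residual_of_isOpenMap (shiftH (m + 1)).continuous (shiftH (m + 1)).isOpenMap (hR (c x))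
  obtain ⟨y, hy1, hy2, hy3⟩ := (dense_of_mem_residual (Filter.inter_mem (hR (c x)) h2)).inter_open_nonempty
    {y : X | y m = x m} (isOpen_lvl x m) ⟨x, rfl⟩
  have hy1 : y m = x m := hy1
  have h3 : c y = c x := hy2.2 (hm y hy1)
  have h4 : c (shift (m + 1) y) = c x := by
    apply hy3.2
    apply hm
    change shift (m + 1) y m = x m
    rw [← shift_low (m + 1) y m (Nat.lt_succ_self m), hy1]
  exact hadj _ _ (adj_shift (m + 1) y) (by rw [h3, h4])

end Pool.Agent.W486.AG
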