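import Pool.Agent.W486.AG.Stm

/-!
TREE: the edge relation is a fixpoint.
-/

set_option autoImplicit false

namespace Pool.Agent.W486.AG

theorem Good.sub {T : List ℕ → Lab} (h : Good T) (j : ℕ) : Good (fun σ => T (j :: σ)) :=
  fun σ => h (j :: σ)

theorem E_child {T : List ℕ → Lab} (h : Good T) (j : ℕ) {n Δ α : ℕ} {a b : X}
    (e : T [j] = (a, b, Δ, α, n)) : E n Δ α a b :=
  ⟨fun σ => T (j :: σ), h.sub j, e⟩

theorem E_low {n Δ α : ℕ} {a b : X} (h : E n Δ α a b) : ∀ m, m < Δ → a m = b m := by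
  obtain ⟨T, hT, e⟩ := h
  have h1 := (hT []).1
  rw [e] at h1
  exact h1

theorem E_base {Δ α : ℕ} {a b : X} (h : E 0 Δ α a b) : α = Δ ∧ b = shift Δ a := by
  obtain ⟨T, hT, e⟩ := h
  have h1 := (hT []).2
  rw [e] at h1
  rcases h1 with h1 | h1
  · exact ⟨h1.2.1, h1.2.2⟩
  · exact absurd h1.1 (by simp [dp])

theorem lab_eta (t : Lab) : t = (tl t, hd t, dl t, al t, dp t) := rfl

theorem E_step {n Δ α : ℕ} {a b : X} (h : E (n + 1) Δ α a b) :
    ∃ M u w c, Lim E n Δ α a b M u w c := by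
  obtain ⟨T, hT, e⟩ := h
  have h1 := (hT []).2
  rw [e] at h1
  rcases h1 with h1 | h1
  · exact absurd h1.1 (by simp [dp])
  · obtain ⟨h1, h2, h3, h4, h5, h6, h7, h8, h9, h10, h11⟩ := h1
    simp only [List.nil_append] at h1 h2 h3 h4 h5 h6 h7 h8 h9 h10 h11
    have hE : ∀ j, E (dp (T [j])) (dl (T [j])) (al (T [j])) (tl (T [j])) (hd (T [j])) :=
      fun j => E_child hT j (lab_eta _)
    refine ⟨hd (T [1]), uu (fun j => T [j]), fun k => hd (T [2 * k + 2]),
      fun k => dl (T [2 * k + 2]), ?_, ?_, ?_, ?_, ?_, ?_⟩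
    · refine ⟨al (T [0]), h4, ?_⟩
      have h := hE 0
      have e1 : n = dp (T [0]) := by
        have : n + 1 = dp (T [0]) + 1 := h1
        omega
      have e2 : Δ = dl (T [0]) := h2
      have e3 : tl (T [0]) = a := h3
      rw [← e1, ← e2, e3] at h
      exact h
    · refine ⟨dp (T [1]), al (T [1]), h7, ?_⟩
      have h := hE 1
      have e2 : dl (T [1]) = α := h5
      have e3 : tl (T [1]) = b := h6
      rw [e2, e3] at h
      exact h
    · exact strictMono_nat_of_lt_succ h8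
    · intro k
      refine ⟨dp (T [2 * k + 2]), al (T [2 * k + 2]), hE (2 * k + 2), ?_⟩
      intro hc
      obtain ⟨h12, h13, h14⟩ := h9 k hc
      refine ⟨dp (T [2 * k + 3]), dl (T [2 * k + 3]), al (T [2 * k + 3]), h14, ?_⟩
      have h := hE (2 * k + 3)
      rw [h12, h13] at h
      exact h
    · intro k hc
      exact h10 k hc
    · intro k m hm
      exact h11 k m hm

theorem post_E : Post E :=
  ⟨fun _ _ _ _ h => E_base h, fun _ _ _ _ _ h => E_step h, fun _ _ _ _ _ h => E_low h⟩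

theorem shift_low (Δ : ℕ) (a : X) (m : ℕ) (hm : m < Δ) : a m = shift Δ a m := by
  rw [shift_apply, kill_of, if_neg (by omega), mul_one]

theorem E_mk_base (Δ : ℕ) (a : X) : E 0 Δ Δ a (shift Δ a) :=
  ⟨fun _ => (a, shift Δ a, Δ, Δ, 0), fun _ => ⟨shift_low Δ a, Or.inl ⟨rfl, rfl, rfl⟩⟩, rfl⟩

theorem E_le : ∀ n Δ α a b, E n Δ α a b → Δ ≤ α := by
  intro n
  induction n with
  | zero => intro Δ α a b h; exact (E_base h).1.ge
  | succ n ih =>
    intro Δ α a b h
    obtain ⟨M, u, w, c, L⟩ := E_step h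
    obtain ⟨αr, h1, h2⟩ := L.r
    exact (ih _ _ _ _ h2).trans h1.le

theorem E_mk_lim {n Δ α : ℕ} {a b M : X} {u w : ℕ → X} {c : ℕ → ℕ}
    (L : Lim E n Δ α a b M u w c) : E (n + 1) Δ α a b := by
  classical
  obtain ⟨αr, hr1, Tr, hTr, er⟩ := L.r
  have hr2 : E n Δ αr a (u 0) := ⟨Tr, hTr, er⟩
  obtain ⟨nl, αl, hl1, Tl, hTl, el⟩ := L.l
  have hl2 : E nl α αl b M := ⟨Tl, hTl, el⟩
  have hΔαr : Δ ≤ αr := E_le _ _ _ _ _ hr2
  have hααl : α ≤ αl := E_le _ _ _ _ _ hl2
  choose nF αF hF using L.F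
  have hF1 : ∀ k, ∃ T, Good T ∧ T [] = (u (k + 1), w k, c k, αF k, nF k) := fun k => (hF k).1
  choose TF hTF eF using hF1
  have hH1 : ∀ k, ∃ T, Good T ∧ (code a b k = true →
      tl (T []) = w k ∧ hd (T []) = u k ∧ αF k < dl (T [])) := by
    intro k
    by_cases hc : code a b k = true
    · obtain ⟨nH, δ, αH, h1, T, h2, h3⟩ := (hF k).2 hc
      exact ⟨T, h2, fun _ => by rw [h3]; exact ⟨rfl, rfl, h1⟩⟩
    · obtain ⟨T, h2, _⟩ := E_mk_base 0 a
      exact ⟨T, h2, fun h => absurd h hc⟩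
  choose TH hTH eH using hH1
  -- the children
  let C : ℕ → List ℕ → Lab := fun j =>
    if j = 0 then Tr else if j = 1 then Tl else
      if j % 2 = 0 then TF (j / 2 - 1) else TH (j / 2 - 1)
  have C0 : C 0 = Tr := rfl
  have C1 : C 1 = Tl := rfl
  have CF : ∀ k, C (2 * k + 2) = TF k := by
    intro k
    have h1 : (2 * k + 2) % 2 = 0 := by omega
    have h2 : (2 * k + 2) / 2 - 1 = k := by omega
    simp only [C]
    rw [if_neg (by omega), if_neg (by omega), if_pos h1, h2]
  have CH : ∀ k, C (2 * k + 3) = TH k := by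
    intro k
    have h1 : ¬ (2 * k + 3) % 2 = 0 := by omega
    have h2 : (2 * k + 3) / 2 - 1 = k := by omega
    simp only [C]
    rw [if_neg (by omega), if_neg (by omega), if_neg h1, h2]
  have hC : ∀ j, Good (C j) := by
    intro j
    simp only [C]
    split_ifs
    · exact hTr
    · exact hTl
    · exact hTF _
    · exact hTH _
  let T : List ℕ → Lab := fun σ => match σ with
    | [] => (a, b, Δ, α, n + 1)
    | j :: σ => C j σ
  refine ⟨T, ?_, rfl⟩
  intro σ
  rcases σ with _ | ⟨j, σ⟩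
  · have e0 : T [0] = (a, u 0, Δ, αr, n) := er
    have e1 : T [1] = (b, M, α, αl, nl) := el
    have e2 : ∀ k, T [2 * k + 2] = (u (k + 1), w k, c k, αF k, nF k) := by
      intro k
      have : T [2 * k + 2] = C (2 * k + 2) [] := rfl
      rw [this, CF, eF]
    have e3 : ∀ k, T [2 * k + 3] = TH k [] := by
      intro k
      have : T [2 * k + 3] = C (2 * k + 3) [] := rfl
      rw [this, CH]
    have eu : ∀ k, uu (fun j => T ([] ++ [j])) k = u k := by
      intro k
      rcases k with _ | k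
      · have : uu (fun j => T ([] ++ [j])) 0 = hd (T [0]) := rfl
        rw [this, e0]; rfl
      · have : uu (fun j => T ([] ++ [j])) (k + 1) = tl (T [2 * k + 2]) := rfl
        rw [this, e2]; rfl
    have hd0 : α < c 0 := by omega
    refine ⟨?_, Or.inr ⟨?_, ?_, ?_, ?_, ?_, ?_, ?_, ?_, ?_, ?_, ?_⟩⟩
    · intro m hm
      have hm : m < Δ := hm
      have h1 : a m = u 0 m := E_low hr2 m hm
      have h2 : u 0 m = M m := L.lim 0 m (by omega)
      have h3 : b m = M m := E_low hl2 m (by omega)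
      change a m = b m
      rw [h1, h2, h3]
    · change n + 1 = dp (T [0]) + 1
      rw [e0]; rfl
    · change Δ = dl (T [0])
      rw [e0]; rfl
    · change tl (T [0]) = a
      rw [e0]; rfl
    · change al (T [0]) < α
      rw [e0]; exact hr1
    · change dl (T [1]) = α
      rw [e1]; rfl
    · change tl (T [1]) = b
      rw [e1]; rfl
    · change al (T [1]) < dl (T [2 * 0 + 2])
      rw [e1, e2]; exact hl1
    · intro k
      change dl (T [2 * k + 2]) < dl (T [2 * (k + 1) + 2])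
      rw [e2, e2]
      exact L.mono (Nat.lt_succ_self k)
    · intro k hc
      have hc : code a b k = true := hc
      rw [eu]
      change tl (T [2 * k + 3]) = hd (T [2 * k + 2]) ∧ hd (T [2 * k + 3]) = u k ∧
        al (T [2 * k + 2]) < dl (T [2 * k + 3])
      rw [e2, e3]
      exact eH k hc
    · intro k hc
      have hc : code a b k = false := hc
      rw [eu]
      change hd (T [2 * k + 2]) = u k
      rw [e2]
      exact L.eqw k hc
    · intro k m hm
      rw [eu]
      change (u k) m = (hd (T [1])) m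
      rw [e1]
      have hm : m < dl (T [2 * k + 2]) := hm
      rw [e2] at hm
      exact L.lim k m hm
  · exact hC j σ

theorem tree : S_TREE := ⟨post_E, E_mk_base, fun _ _ _ _ _ _ _ _ _ L => E_mk_lim L⟩

end Pool.Agent.W486.AG
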