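import Pool.Agent.W486.AG.Acyc
import Pool.Agent.W486.AG.Tree
import Pool.Agent.W486.AG.Chr
import Pool.Agent.W374.AG.Code
import Pool.Agent.W374.AG.Step
import Pool.Agent.W374.AG.Hit
import Pool.Agent.W74.AG.Ins

/-!
Assembly.
-/

set_option autoImplicit false

namespace Pool.Agent.W486.AG

/-- a dense sequence of strings -/
def sd (n i : ℕ) : Bool :=
  ((Encodable.decode (α := List Bool) (Nat.unpair n).2).getD []).getD i false

theorem dns_sd : Dns sd := by
  intro u m
  refine ⟨Nat.pair m (Encodable.encode (List.ofFn (fun i : Fin m => u i))),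
    Nat.left_le_pair _ _, fun i hi => ?_⟩
  unfold sd
  rw [Nat.unpair_pair, Encodable.encodek]
  simp [List.getD_eq_getElem?_getD, hi]

theorem hit : S_HIT := by
  have hins : S_INS := Pool.Agent.W74.AG.ins str tree
  exact Pool.Agent.W374.AGHit.t_hit (Pool.Agent.W374.AGStep.t_step hins)
    (Pool.Agent.W374.AGStep.t_init hins) Pool.Agent.W374.AGCode.t_code1 tree str

theorem acyclic_G : G.IsAcyclic :=
  acyc Pool.Agent.W374.AGCode.t_code2 E post_E

/-- no continuous reduction of `G_0` to `G`, for every dense sequence of strings -/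
theorem no_reduction (s : ℕ → ℕ → Bool) (hs : Dns s) :
    ¬ ∃ f : Cn → X, Continuous f ∧ ∀ x y : Cn, (G0 s x y ↔ G.Adj (f x) (f y)) := by
  rintro ⟨f, hf, hred⟩
  obtain ⟨x, y, hxy, hinf⟩ := hit s f hs ⟨hf, fun x y h => (hred x y).1 h⟩
  obtain ⟨n, Δ, α, hE⟩ := hxy
  have hne : f x ≠ f y := by
    intro h
    rw [h] at hE
    obtain ⟨T, hT, _⟩ := (strAt' post_E Δ hE).1 le_rfl
    rw [P_self] at hT
    simp at hT
  have hadj : G.Adj (f x) (f y) := by
    rw [G, SimpleGraph.fromRel_adj]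
    exact ⟨hne, Or.inl ⟨n, Δ, α, hE⟩⟩
  obtain ⟨k, h1, _, h3⟩ := (hred x y).2 hadj
  apply hinf
  apply (Set.finite_singleton k).subset
  intro i hi
  rcases lt_trichotomy i k with h | h | h
  · exact absurd ((h1 i h).1.trans (h1 i h).2.symm) hi
  · exact h
  · exact absurd (h3 i h) hi

end Pool.Agent.W486.AG
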