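import Pool.Agent.W486.AG.Str

/-!
BITS, SIDE and WALK.
-/

set_option autoImplicit false

namespace Pool.Agent.W486.AG

open FreeGroup

theorem bits : S_BITS := by
  intro E hE t v h n n1 n2 Δ Δ1 δ α α1 α2 h0 h1 h2 hΔ hα
  have S0 := strAt' hE δ h0
  have S1 := strAt' hE δ h1
  have S2 := strAt' hE δ h2
  obtain ⟨T, eT, gT⟩ := S2.1 le_rfl
  have hT : T = [] := by
    rw [List.eq_nil_iff_forall_not_mem]
    intro p hp
    have h3 := gT p hp
    have h4 : p ∈ P δ v h := by rw [eT]; exact List.mem_cons_of_mem _ hp
    have := P_le h4
    omega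
  subst hT
  obtain ⟨T1, s, e1⟩ := S1.2.1 hα.le
  have e : P δ t h = P δ t v ++ P δ v h := by
    apply P_append
    apply isReduced_append_of_ne (P_red _ _ _) (P_red _ _ _)
    intro p hp q hq
    rw [e1] at hp
    rw [eT] at hq
    simp only [List.getLast?_append, List.getLast?_singleton, Option.some_or,
      Option.mem_def, Option.some.injEq] at hp
    simp only [List.head?_cons, Option.mem_def, Option.some.injEq] at hq
    subst hp; subst hq
    simp only
    omega
  rw [eT] at e
  exact absurd (S0.2.2 _ _ hΔ e) (by simp)

theorem side_iff : S_SIDE := by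
  intro m c h x y
  constructor
  · rintro ⟨B, hB⟩
    refine ⟨?_, B, P_suffix hB⟩
    rintro ⟨T, hT⟩
    have h1 : P m x h = invRev T ++ [(c, false)] := by
      rw [P_inv m h x, hT]; simp [invRev]
    rw [h1] at hB
    have h2 := P_red m x y
    rw [hB] at h2
    have h3 : IsReduced [(c, false), (c, true)] :=
      red_sub h2 ⟨invRev T, B, by simp⟩
    have := (FreeGroup.isReduced_cons_cons.1 h3).1 rfl
    simp at this
  · rintro ⟨hx, T, hT⟩
    refine ⟨T, ?_⟩
    rw [← hT]
    apply P_append
    apply isReduced_append (P_red _ _ _) (P_red _ _ _)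
    intro p hp q hq
    rw [hT] at hq
    simp only [List.head?_cons, Option.mem_def, Option.some.injEq] at hq
    subst hq
    intro hpc
    by_contra hs
    apply hx
    have hp2 : p.2 = false := by
      rcases hb : p.2 with _ | _
      · rfl
      · exact absurd hb hs
    have hp3 : p = (c, false) := by
      rcases p with ⟨i, s⟩
      simp only at hpc hp2
      rw [hpc, hp2]
    rw [hp3] at hp
    obtain ⟨L, hL⟩ := List.getLast?_eq_some_iff.1 hp
    refine ⟨invRev L, ?_⟩
    rw [P_inv m x h, hL]
    simp [invRev]

theorem walk_parity {V : Type} {G : SimpleGraph V} (S : V → Prop) [DecidablePred S]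
    (ch : Sym2 V → Bool) (hch : ∀ x y, ch s(x, y) = (decide (S x) != decide (S y)))
    {u v : V} (p : G.Walk u v) :
    (p.edges.countP ch) % 2 = (if decide (S u) != decide (S v) then 1 else 0) := by
  induction p with
  | nil => simp
  | @cons a b c h p ih =>
    rw [SimpleGraph.Walk.edges_cons, List.countP_cons, hch]
    by_cases ha : S a <;> by_cases hb : S b <;> by_cases hc : S c <;> simp_all <;> omega

theorem walk : S_WALK := by
  intro V G v p hp S x y hxy hx hy
  classical
  let ch : Sym2 V → Bool := Sym2.lift ⟨fun a b => (decide (S a) != decide (S b)), by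
    intro a b; exact bne_comm⟩
  have hch : ∀ x y, ch s(x, y) = (decide (S x) != decide (S y)) := fun x y => rfl
  have h1 := walk_parity S ch hch p
  simp only [bne_self_eq_false, Bool.false_eq_true, if_false] at h1
  by_contra hcon
  push Not at hcon
  have h2 : p.edges.countP ch = p.edges.count s(x, y) := by
    rw [List.count]
    apply List.countP_congr
    intro e he
    constructor
    · intro h3
      induction e using Sym2.ind with
      | _ a b =>
        rw [hch] at h3
        by_contra h4
        have h5 : s(a, b) ≠ s(x, y) := by simpa using h4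
        by_cases ha : S a <;> by_cases hb : S b
        · simp [ha, hb] at h3
        · exact hb (hcon a b he h5 ha)
        · rw [Sym2.eq_swap] at he h5
          exact ha (hcon b a he h5 hb)
        · simp [ha, hb] at h3
    · intro h3
      have : e = s(x, y) := by simpa using h3
      rw [this, hch]
      simp [hx, hy]
  rw [h2, List.count_eq_one_of_mem hp.1.1.edges_nodup hxy] at h1
  simp at h1

end Pool.Agent.W486.AG
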