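import Pool.Agent.W486.AG.Rec
import Pool.Agent.W486.AG.Small

/-!
CASE2.
-/

set_option autoImplicit false

namespace Pool.Agent.W486.AG

open FreeGroup

/-- bits of the two codes agree -/
theorem bit_le {E : ℕ → ℕ → ℕ → X → X → Prop} (hE : Post E) {n Δ α : ℕ} {a b M : X}
    {u w : ℕ → X} {c : ℕ → ℕ} (L : Lim E n Δ α a b M u w c)
    {n' Δ' α' : ℕ} {s t M' : X} {u' w' : ℕ → X} {c' : ℕ → ℕ}
    (L' : Lim E n' Δ' α' s t M' u' w' c') {k j : ℕ} (h0 : u k = u' j)
    (h1 : u (k + 1) = u' (j + 1)) (h2 : c k = c' j) (h3 : code s t j = true) :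
    code a b k = true := by
  by_contra hcon
  have hw : w k = u k := L.eqw k (by simpa using hcon)
  obtain ⟨nF, αF, hF, _⟩ := L.F k
  obtain ⟨nF', αF', hF', hH'⟩ := L'.F j
  obtain ⟨nH, δ, αH, hδ, hH⟩ := hH' h3
  rw [hw, h1, h0] at hF
  have := le_alpha hE _ _ _ _ _ hF'
  exact bits E hE _ _ _ _ _ _ _ _ _ _ _ _ hF hF' hH (by omega) hδ

theorem case2 (hcode : S_CODE2) : S_CASE2 := by
  intro E hE n Δ α a b M u w c L n' Δ' α' s t M' u' w' c' L' x y hxy hinf
  have g := germ_rec E hE _ _ _ _ _ _ _ _ _ L
  have g' := germ_rec E hE _ _ _ _ _ _ _ _ _ L'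
  obtain ⟨b1, b2, b3, b4, b5, b6⟩ := cat E hE _ _ _ _ _ _ _ _ _ L'
  have ht : Tame s t := (tame E hE).2 _ _ _ _ _ _ _ _ _ L'
  obtain ⟨t1, t2⟩ := ht.sub b1
  obtain ⟨t3, t4⟩ := t2.sub b3
  have t5 : ∀ J, Tame (u' J) M' := fun J => (t3.sub (b4 J)).2
  -- equality of the limits, given frequent crossing near M'
  have hM : (∀ J K, ∃ k, K ≤ k ∧ (Cr (c k) (u (k + 1)) (u' J) M' ∨ Cr (c k) (u (k + 1)) M' (u' J))) →
      M = M' := by
    intro hf
    apply X.ext
    intro m
    have hJ : m < c' (m + 1) := by
      have := g'.mono.le_apply (x := m + 1)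
      omega
    obtain ⟨k, hk, hc⟩ := hf (m + 1) (m + 1)
    have hck : m < c k := by
      have := g.mono.le_apply (x := k)
      omega
    have hu : u (k + 1) m = M m := g.lim (k + 1) m (hck.trans (g.mono (Nat.lt_succ_self k)))
    have hge : ∀ p ∈ P (c k) M' (u' (m + 1)), m < p.1 := fun p hp =>
      lt_of_lt_of_le hJ (g'.ge _ _ p hp)
    have hge2 : ∀ p ∈ P (c k) (u' (m + 1)) M', m < p.1 := by
      intro p hp
      rw [P_inv (c k) M'] at hp
      have := hge _ (mem_invRev hp)
      simpa using this
    rw [← hu]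
    rcases hc with hc | hc
    · have h1 := (hc (c k) le_rfl).mem
      apply eq_of_P_gt hck.le
      intro p hp
      apply hge2
      rw [h1]
      exact List.mem_append_right _ hp
    · have h1 := (hc (c k) le_rfl).mem
      symm
      apply eq_of_P_gt hck.le
      intro p hp
      apply hge
      rw [h1]
      exact List.mem_append_left _ hp
  rcases hxy with ⟨rfl, rfl, f1, f2, f3⟩ | ⟨rfl, rfl, f1, f2, f3⟩
  · -- forward: impossible
    exfalso
    have k0 : (KS u c (u' 0) M').Infinite := by
      have hsub : KS u c x y ⊆ KS u c x (u' 0) ∪ (KS u c (u' 0) M' ∪ KS u c M' y) := by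
        intro k hk
        rcases Cr.split hk b1 ht with h | h
        · exact Or.inl h
        · rcases Cr.split h b3 t2 with h | h
          · exact Or.inr (Or.inl h)
          · exact Or.inr (Or.inr h)
      have h1 := hinf.mono hsub
      rw [Set.infinite_union, Set.infinite_union] at h1
      rcases h1 with h1 | h1 | h1
      · exact absurd f1 h1
      · exact h1
      · exact absurd f2 h1
    have kJ : ∀ J, (KS u c (u' J) M').Infinite := by
      intro J
      induction J with
      | zero => exact k0
      | succ J ih =>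
        have hsub : KS u c (u' J) M' ⊆ KS u c (u' J) (u' (J + 1)) ∪ KS u c (u' (J + 1)) M' := by
          intro k hk
          exact Cr.split hk (b5 J) (t5 J)
        have h1 := ih.mono hsub
        rw [Set.infinite_union] at h1
        rcases h1 with h1 | h1
        · exact absurd (f3 J) h1
        · exact h1
    have hMM : M = M' := hM (fun J K => by
      obtain ⟨k, hk, hkk⟩ := (kJ J).exists_gt K
      exact ⟨k, hkk.le, Or.inl hk⟩)
    subst hMM
    obtain ⟨k, hk⟩ := k0.nonempty
    obtain ⟨B, hB⟩ := (hk (c k) le_rfl).next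
    have h1 : (c k, true) ∈ P (c k) (u (k + 1)) M := by rw [hB]; simp
    rw [P_inv (c k) M] at h1
    have := g.gt _ (mem_invRev h1)
    simp at this
  · -- backward
    have k0 : (KS u c M' (u' 0)).Infinite := by
      have hsub : KS u c x y ⊆ KS u c x M' ∪ (KS u c M' (u' 0) ∪ KS u c (u' 0) y) := by
        intro k hk
        rcases Cr.split hk b1.symm ht.symm with h | h
        · rcases Cr.split h b3.symm t2.symm with h | h
          · exact Or.inl h
          · exact Or.inr (Or.inl h)
        · exact Or.inr (Or.inr h)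
      have h1 := hinf.mono hsub
      rw [Set.infinite_union, Set.infinite_union] at h1
      rcases h1 with h1 | h1 | h1
      · exact absurd f2 h1
      · exact h1
      · exact absurd f1 h1
    have kJ : ∀ J, (KS u c M' (u' J)).Infinite := by
      intro J
      induction J with
      | zero => exact k0
      | succ J ih =>
        have hsub : KS u c M' (u' J) ⊆ KS u c M' (u' (J + 1)) ∪ KS u c (u' (J + 1)) (u' J) := by
          intro k hk
          exact Cr.split hk (b5 J).symm (t5 J).symm
        have h1 := ih.mono hsub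
        rw [Set.infinite_union] at h1
        rcases h1 with h1 | h1
        · exact h1
        · exact absurd (f3 J) h1
    have hMM : M = M' := hM (fun J K => by
      obtain ⟨k, hk, hkk⟩ := (kJ J).exists_gt K
      exact ⟨k, hkk.le, Or.inr hk⟩)
    subst hMM
    obtain ⟨k, hk⟩ := k0.nonempty
    -- the common vertex
    have key : ∀ m, c k ≤ m → ∃ j, c k = c' j ∧ (u (k + 1)) m = (u' (j + 1)) m := by
      intro m hm
      obtain ⟨B, hB⟩ := hk m hm
      obtain ⟨_, j, _, h2, h3⟩ := g'.recs m 0 _ _ _ _ hB g.gt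
      exact ⟨j, h2, P_inj_right h3⟩
    obtain ⟨j, h2, _⟩ := key (c k) le_rfl
    have hz : u (k + 1) = u' (j + 1) := by
      apply eq_of_frequently
      intro N
      obtain ⟨j'', h4, h5⟩ := key (max (c k) N) (le_max_left _ _)
      have : j'' = j := g'.mono.injective (by rw [← h4, ← h2])
      subst this
      exact ⟨_, le_max_right _ _, h5⟩
    have hge := germEq M u c u' c' g g' (k + 1) (j + 1) hz
    have hbits : ∀ i, code a b (k + 1 + i) = code y x (j + 1 + i) := by
      intro i
      obtain ⟨e1, e2⟩ := hge i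
      obtain ⟨e3, _⟩ := hge (i + 1)
      rw [← Nat.add_assoc, ← Nat.add_assoc] at e3
      rw [Bool.eq_iff_iff]
      constructor
      · intro h
        exact bit_le hE L' L e1.symm e3.symm e2.symm h
      · intro h
        exact bit_le hE L L' e1 e3 e2 h
    exact hcode _ _ _ _ _ _ hbits

end Pool.Agent.W486.AG
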