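import Pool.Agent.W486.AG.Desc
import Pool.Agent.W486.AG.Case2

/-!
ACYC.
-/

set_option autoImplicit false

namespace Pool.Agent.W486.AG

open FreeGroup

theorem pigeon {ι : Type} (F : Finset ι) (Q : ι → ℕ → Prop) (N0 : ℕ)
    (h : ∀ m, N0 ≤ m → ∃ e ∈ F, Q e m) : ∃ e ∈ F, ∀ N, ∃ m, N ≤ m ∧ Q e m := by
  classical
  by_contra hcon
  push Not at hcon
  have h2 : ∀ e, ∃ N, e ∈ F → ∀ m, N ≤ m → ¬ Q e m := by
    intro e
    by_cases he : e ∈ F
    · obtain ⟨N, hN⟩ := hcon e he
      exact ⟨N, fun _ => hN⟩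
    · exact ⟨0, fun h => absurd h he⟩
  choose f hf using h2
  obtain ⟨e, he, hQ⟩ := h (max N0 (F.sup f)) (le_max_left _ _)
  exact hf e he _ ((Finset.le_sup he).trans (le_max_right _ _)) hQ

theorem acyc (hcode : S_CODE2) : S_ACYC := by
  classical
  intro E hE v p hp
  have hadj : ∀ x y, s(x, y) ∈ p.edges → (∃ n Δ α, E n Δ α x y) ∨ (∃ n Δ α, E n Δ α y x) := by
    intro x y h
    exact (SimpleGraph.fromRel_adj _ _ _ |>.1 (p.adj_of_mem_edges h)).2
  -- the level `m0`
  obtain ⟨m0, hm0⟩ : ∃ m0, ∀ x y, s(x, y) ∈ p.edges →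
      ∃ n Δ α, (E n Δ α x y ∨ E n Δ α y x) ∧ α ≤ m0 := by
    have h1 : ∀ e : Sym2 X, ∃ A, ∀ x y, e = s(x, y) → e ∈ p.edges →
        ∃ n Δ α, (E n Δ α x y ∨ E n Δ α y x) ∧ α ≤ A := by
      intro e
      by_cases he : e ∈ p.edges
      · induction e using Sym2.ind with
        | _ x y =>
          rcases hadj x y he with ⟨n, Δ, α, h⟩ | ⟨n, Δ, α, h⟩
          · refine ⟨α, fun x' y' hxy _ => ⟨n, Δ, α, ?_, le_rfl⟩⟩
            rcases Sym2.eq_iff.1 hxy with ⟨rfl, rfl⟩ | ⟨rfl, rfl⟩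
            · exact Or.inl h
            · exact Or.inr h
          · refine ⟨α, fun x' y' hxy _ => ⟨n, Δ, α, ?_, le_rfl⟩⟩
            rcases Sym2.eq_iff.1 hxy with ⟨rfl, rfl⟩ | ⟨rfl, rfl⟩
            · exact Or.inr h
            · exact Or.inl h
      · exact ⟨0, fun _ _ _ h => absurd h he⟩
    choose A hA using h1
    refine ⟨p.edges.toFinset.sup A, fun x y h => ?_⟩
    obtain ⟨n, Δ, α, h2, h3⟩ := hA _ x y rfl h
    exact ⟨n, Δ, α, h2, h3.trans (Finset.le_sup (List.mem_toFinset.2 h))⟩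
  -- the longest edge
  obtain ⟨a, b, hab, n, Δ, α, hE0, hα, hmax⟩ : ∃ a b, s(a, b) ∈ p.edges ∧ ∃ n Δ α, E n Δ α a b ∧
      α ≤ m0 ∧ ∀ x y, s(x, y) ∈ p.edges → (P m0 x y).length ≤ (P m0 a b).length := by
    let len : Sym2 X → ℕ := Sym2.lift ⟨fun x y => (P m0 x y).length, fun x y =>
      (P_length_comm m0 y x)⟩
    have hne : p.edges.toFinset.Nonempty := by
      have h3 := hp.three_le_length
      rw [← SimpleGraph.Walk.length_edges] at h3
      rcases h4 : p.edges with _ | ⟨e, l⟩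
      · rw [h4] at h3; simp at h3
      · exact ⟨e, by simp⟩
    obtain ⟨e, he, hmax⟩ := Finset.exists_max_image p.edges.toFinset len hne
    rw [List.mem_toFinset] at he
    induction e using Sym2.ind with
    | _ x y =>
      have hmax' : ∀ x' y', s(x', y') ∈ p.edges → (P m0 x' y').length ≤ (P m0 x y).length :=
        fun x' y' h => hmax s(x', y') (List.mem_toFinset.2 h)
      obtain ⟨n, Δ, α, h | h, hα⟩ := hm0 x y he
      · exact ⟨x, y, he, n, Δ, α, h, hα, hmax'⟩
      · refine ⟨y, x, by rw [Sym2.eq_swap]; exact he, n, Δ, α, h, hα, ?_⟩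
        intro x' y' h'
        rw [P_length_comm m0 x y]
        exact hmax' x' y' h'
  let F : Finset (X × X) := p.support.toFinset ×ˢ p.support.toFinset
  have hF : ∀ x y, s(x, y) ∈ p.edges → (x, y) ∈ F := by
    intro x y h
    rw [Finset.mem_product]
    exact ⟨List.mem_toFinset.2 (p.fst_mem_support_of_mem_edges h),
      List.mem_toFinset.2 (p.snd_mem_support_of_mem_edges h)⟩
  rcases n with _ | n
  · -- base edge
    obtain ⟨h1, h2⟩ := hE.base _ _ _ _ hE0
    subst h1; subst h2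
    have hlen : (P m0 a (shift α a)).length = 1 := by rw [P_shift m0 α a hα]; rfl
    have hbase : ∀ x y, s(x, y) ∈ p.edges → ∃ Δ', (E 0 Δ' Δ' x y ∨ E 0 Δ' Δ' y x) := by
      intro x y h
      obtain ⟨n', Δ', α', h3, h4⟩ := hm0 x y h
      have h5 := hmax x y h
      rw [hlen] at h5
      rcases n' with _ | n'
      · rcases h3 with h3 | h3
        · obtain ⟨h6, _⟩ := hE.base _ _ _ _ h3
          subst h6
          exact ⟨_, Or.inl h3⟩
        · obtain ⟨h6, _⟩ := hE.base _ _ _ _ h3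
          subst h6
          exact ⟨_, Or.inr h3⟩
      · exfalso
        have h7 : ∀ s t, E (n' + 1) Δ' α' s t → 1 < (P m0 s t).length := by
          intro s t hst
          obtain ⟨M, u, w, c, L⟩ := hE.step _ _ _ _ _ hst
          have h8 := (pieces hE L s (u 0) (Or.inl ⟨rfl, rfl⟩)).2 m0 h4
          obtain ⟨αr, hr1, hr2⟩ := L.r
          obtain ⟨T, eT, _⟩ := (strAt' hE m0 hr2).1 (by
            have := le_alpha hE _ _ _ _ _ hr2
            omega)
          rw [eT] at h8
          simp only [List.length_cons] at h8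
          omega
        rcases h3 with h3 | h3
        · have := h7 _ _ h3; omega
        · have := h7 _ _ h3
          rw [P_length_comm] at this
          omega
    have hQ : ∀ m, α ≤ m → ∃ e ∈ F, (s(e.1, e.2) ∈ p.edges ∧ s(e.1, e.2) ≠ s(a, shift α a) ∧
        e.2 = shift α e.1 ∧ e.1 m = a m) := by
      intro m hm
      obtain ⟨x', y', h3, h4, h5, h6⟩ := walk X _ v p hp (fun z => ¬ side m α a z) a (shift α a) hab
        (by rintro ⟨T, hT⟩; rw [P_self] at hT; simp at hT)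
        (by intro h; exact h ⟨[], P_shift m α a hm⟩)
      have ho : OC m α a x' y' := (side_iff m α a x' y').2 ⟨h5, not_not.1 h6⟩
      obtain ⟨B, hB⟩ := ho
      obtain ⟨Δ', h7 | h7⟩ := hbase x' y' h3
      · obtain ⟨_, h8⟩ := hE.base _ _ _ _ h7
        subst h8
        have hΔ : Δ' ≤ m := by
          by_contra h9
          have : P m x' (shift Δ' x') = [] := by
            apply P_nil.2
            rw [shift_apply, kill_of, if_neg h9, mul_one]
          rw [this] at hB
          simp at hB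
        rw [P_shift m Δ' x' hΔ] at hB
        rcases h10 : P m x' a with _ | ⟨q, C⟩
        · rw [h10] at hB
          simp only [List.nil_append, List.cons.injEq, Prod.mk.injEq, and_true] at hB
          obtain ⟨rfl, _⟩ := hB
          exact ⟨(x', shift Δ' x'), hF _ _ h3, h3, h4, rfl, P_nil.1 h10⟩
        · rw [h10] at hB
          simp at hB
      · exfalso
        obtain ⟨_, h8⟩ := hE.base _ _ _ _ h7
        subst h8
        have h9 : (α, true) ∈ P m (shift Δ' y') y' := by rw [hB]; simp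
        rw [P_inv m y'] at h9
        have h10 := mem_invRev h9
        by_cases hΔ : Δ' ≤ m
        · rw [P_shift m Δ' y' hΔ] at h10
          simp at h10
        · have : P m y' (shift Δ' y') = [] := by
            apply P_nil.2
            rw [shift_apply, kill_of, if_neg hΔ, mul_one]
          rw [this] at h10
          simp at h10
    obtain ⟨⟨x', y'⟩, _, h4⟩ := pigeon F _ α hQ
    have h5 : x' = a := eq_of_frequently fun N => by
      obtain ⟨m, h6, h7⟩ := h4 N
      exact ⟨m, h6, h7.2.2.2⟩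
    obtain ⟨m, _, h6, h7, h8, _⟩ := h4 0
    simp only at h7 h8
    rw [h5] at h8
    rw [h5, h8] at h7
    exact h7 rfl
  · -- limit edge
    obtain ⟨M, u, w, c, L⟩ := hE.step _ _ _ _ _ hE0
    have g := germ_rec E hE _ _ _ _ _ _ _ _ _ L
    obtain ⟨b1, b2, b3, b4, b5, b6⟩ := cat E hE _ _ _ _ _ _ _ _ _ L
    have b7 : Btw M (u 0) a := (Btw.trans_right b1 b3).2.symm
    have hOC : ∀ k m, c k ≤ m → OC m (c k) (u (k + 1)) b a := by
      intro k m hm
      have h1 : OC m (c k) (u (k + 1)) M (u 0) := g.letter (Nat.zero_le k) hm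
      exact (h1.btw_left (b7 m)).btw_right (b2.symm m)
    have hedge : ∀ x y, s(x, y) ∈ p.edges → Tame x y := by
      intro x y h
      rcases hadj x y h with ⟨_, _, _, h⟩ | ⟨_, _, _, h⟩
      · exact (tame E hE).1 _ _ _ _ _ h
      · exact ((tame E hE).1 _ _ _ _ _ h).symm
    have h1 : ∀ k, ∃ e ∈ F, s(e.1, e.2) ∈ p.edges ∧ s(e.1, e.2) ≠ s(b, a) ∧
        k ∈ KS u c e.1 e.2 := by
      intro k
      have hQ : ∀ m, c k ≤ m → ∃ e ∈ F, (s(e.1, e.2) ∈ p.edges ∧ s(e.1, e.2) ≠ s(b, a) ∧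
          OC m (c k) (u (k + 1)) e.1 e.2) := by
        intro m hm
        obtain ⟨h2, h3⟩ := (side_iff m (c k) (u (k + 1)) b a).1 (hOC k m hm)
        obtain ⟨x', y', h4, h5, h6, h7⟩ := walk X _ v p hp
          (fun z => ¬ side m (c k) (u (k + 1)) z) b a (by rw [Sym2.eq_swap]; exact hab) h2
          (not_not.2 h3)
        exact ⟨(x', y'), hF _ _ h4, h4, h5, (side_iff _ _ _ _ _).2 ⟨h6, not_not.1 h7⟩⟩
      obtain ⟨e, he, h2⟩ := pigeon F _ (c k) hQ
      obtain ⟨_, _, h3, h4, _⟩ := h2 0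
      refine ⟨e, he, h3, h4, ?_⟩
      exact Cr.of_frequently (hedge _ _ h3) (fun N => by
        obtain ⟨m, h5, h6⟩ := h2 N
        exact ⟨m, h5, h6.2.2⟩)
    obtain ⟨⟨x', y'⟩, _, h2⟩ := pigeon F _ 0 (fun k _ => h1 k)
    obtain ⟨_, _, h3, h4, _⟩ := h2 0
    simp only at h3 h4
    have hinf : (KS u c x' y').Infinite := by
      apply Set.infinite_of_forall_exists_gt
      intro K
      obtain ⟨k, h5, h6⟩ := h2 (K + 1)
      exact ⟨k, h6.2.2, by omega⟩
    obtain ⟨n1, Δ1, α1, h5, h6⟩ := hm0 x' y' h3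
    obtain ⟨n', Δ', α', s, t, M', u', w', c', x'', y'', L', h7, h8, h9⟩ :=
      desc E hE M u c g n1 Δ1 α1 x' y' h5 hinf
    obtain ⟨rfl, rfl⟩ := case2 hcode E hE _ _ _ _ _ _ _ _ _ L _ _ _ _ _ _ _ _ _ L' x'' y'' h7 h8
    have h10 : s(x'', y'') = s(b, a) := by
      rcases h7 with ⟨rfl, rfl, _⟩ | ⟨rfl, rfl, _⟩
      · rw [Sym2.eq_swap]
      · rfl
    have h11 : (P m0 x'' y'').length = (P m0 a b).length := by
      rcases h7 with ⟨rfl, rfl, _⟩ | ⟨rfl, rfl, _⟩
      · rfl
      · rw [P_length_comm]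
    rcases h9 with ⟨rfl, rfl⟩ | h9
    · exact h4 h10
    · have h12 := h9 m0 h6
      have h13 := hmax x' y' h3
      omega

end Pool.Agent.W486.AG
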