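import Pool.Agent.W486.AG.Rec

/-!
CLAIMA.
-/

set_option autoImplicit false

namespace Pool.Agent.W486.AG

open FreeGroup

theorem claimA : S_CLAIMA := by
  intro M u c g x0 x y y0 ks hks b1 b2 hinf Δ hlow hstr
  by_contra hlt
  push Not at hlt
  obtain ⟨k, hk, hkk⟩ := hinf.exists_gt ks
  have hcks : c ks < c k := g.mono hkk
  obtain ⟨B, hB⟩ := hk (c k) le_rfl
  have hΔm : Δ ≤ c k := by
    by_contra h
    have h1 : P (c k) x y = [] := P_nil.2 (hlow (c k) (by omega)).symm
    rw [h1] at hB
    simp at hB
  obtain ⟨T, eT, gT⟩ := hstr (c k) hΔm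
  have exy : P (c k) x y = invRev T ++ [(Δ, false)] := by
    rw [P_inv (c k) y x, eT]
    simp [invRev]
  obtain ⟨B', hB', gB'⟩ : ∃ B', B = B' ++ [(Δ, false)] ∧ ∀ p ∈ (c k, true) :: B', Δ < p.1 := by
    rcases List.eq_nil_or_concat B with h | ⟨B', q, h⟩
    · exfalso
      rw [h, exy] at hB
      have := (List.append_inj' hB rfl).2
      simp at this
    · rw [List.concat_eq_append] at h
      rw [h, exy] at hB
      have h2 : invRev T ++ [(Δ, false)] =
          (P (c k) x (u (k + 1)) ++ (c k, true) :: B') ++ [q] := by rw [hB]; simp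
      obtain ⟨h3, h4⟩ := List.append_inj' h2 rfl
      simp only [List.cons.injEq, and_true] at h4
      refine ⟨B', by rw [h, h4], ?_⟩
      intro p hp
      have h5 : p ∈ invRev T := by rw [h3]; exact List.mem_append_right _ hp
      have := gT _ (mem_invRev h5)
      simpa using this
  have hck : Δ < c k := gB' _ (List.mem_cons_self)
  obtain ⟨B2, hB2⟩ := hks (c k) hcks.le
  have e5 : P (c k) x0 (u (k + 1)) = P (c k) x0 x ++ P (c k) x (u (k + 1)) := by
    apply P_eq_of_mk
    · have h1 := P_red (c k) x0 y0
      rw [b1 (c k), b2 (c k), hB] at h1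
      exact red_sub h1 ⟨[], (c k, true) :: B ++ P (c k) y y0, by simp⟩
    · rw [← FreeGroup.mul_mk, P_mk, P_mk]; group
  have e4 : P (c k) x0 y0 = P (c k) x0 (u (k + 1)) ++ ((c k, true) :: (B ++ P (c k) y y0)) := by
    rw [b1 (c k), b2 (c k), hB, e5]; simp
  obtain ⟨T', eT'⟩ := g.letter (m := c k) (i := k) (k := ks + 1) hkk le_rfl
  have e6 : P (c k) (u (k + 1)) (u (ks + 1)) = (c k, true) :: T' := P_suffix eT'
  rw [hB2] at e4
  rcases List.append_eq_append_iff.1 e4 with ⟨C, h1, h2⟩ | ⟨C, h1, h2⟩
  · -- P x0 u_{k+1} = P x0 u_{ks+1} ++ C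
    rcases C with _ | ⟨q, C⟩
    · simp only [List.nil_append, List.cons.injEq, Prod.mk.injEq, and_true] at h2
      omega
    · simp only [List.cons_append, List.cons.injEq] at h2
      have h3 : P (c k) (u (ks + 1)) (u (k + 1)) = q :: C := P_suffix h1
      have h4 : (c ks, true) ∈ P (c k) (u (ks + 1)) (u (k + 1)) := by rw [h3, ← h2.1]; simp
      rw [P_inv (c k) (u (k + 1)) (u (ks + 1))] at h4
      have h5 := mem_invRev h4
      have h6 : (c ks, !true) ∈ P (c k) M (u (ks + 1)) := by
        rw [eT', ← e6]
        exact List.mem_append_right _ h5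
      have := g.gt _ h6
      simp at this
  · rcases C with _ | ⟨q, C⟩
    · simp only [List.nil_append, List.cons.injEq, Prod.mk.injEq, and_true] at h2
      omega
    · simp only [List.cons_append, List.cons.injEq] at h2
      obtain ⟨rfl, h2⟩ := h2
      have h3 : P (c k) (u (k + 1)) (u (ks + 1)) = (c k, true) :: C := P_suffix h1
      rw [e6] at h3
      simp only [List.cons.injEq, true_and] at h3
      subst h3
      obtain ⟨D, hD⟩ : ∃ D, T' = B ++ D := by
        rcases List.append_eq_append_iff.1 h2 with ⟨D, h4, h5⟩ | ⟨D, h4, h5⟩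
        · exact ⟨D, h4⟩
        · rcases D with _ | ⟨q, D⟩
          · exact ⟨[], by simpa using h4.symm⟩
          · exfalso
            simp only [List.cons_append, List.cons.injEq] at h5
            have h6 : q ∈ B := by rw [h4]; simp
            rw [← h5.1, hB'] at h6
            rcases List.mem_append.1 h6 with h7 | h7
            · have := gB' _ (List.mem_cons_of_mem _ h7)
              simp only at this
              omega
            · simp at h7
      have e7 : P (c k) M (u (ks + 1)) =
          (P (c k) M (u (k + 1)) ++ (c k, true) :: B') ++ (Δ, false) :: D := by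
        rw [eT', hD, hB']; simp
      have := (g.recs _ _ _ _ _ _ e7 (by
        intro p hp
        rcases List.mem_append.1 hp with hp | hp
        · exact hck.trans (g.gt p hp)
        · exact gB' p hp)).1
      exact absurd this (by simp)

end Pool.Agent.W486.AG
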