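import Mathlib

/-!
Definitions for the counterexample of `MP_21cc92_lc` (negation, frozen statement S14472).

`X` is the inverse limit of the free groups on the generators with index at most `m`
(the bonding maps kill generators).  `P m x y` is the reduced word leading from `x` to `y` at
level `m` (right multiplication).  `E n Δ α a b` says that `(a, b)` is an oriented edge
(tail `a`, head `b`) with depth `n`, first level of difference `Δ` and head letter index `α`.
-/

set_option autoImplicit false

namespace Pool.Agent.W486.AG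

abbrev FG := FreeGroup ℕ

abbrev Wd := List (ℕ × Bool)

/-- Kill all generators with index larger than `m`. -/
def kill (m : ℕ) : FG →* FG :=
  FreeGroup.lift (fun i => if i ≤ m then FreeGroup.of i else 1)

theorem kill_of (m c : ℕ) : kill m (FreeGroup.of c) = if c ≤ m then FreeGroup.of c else 1 := by
  simp [kill]

theorem kill_kill (m m' : ℕ) (h : m ≤ m') (g : FG) : kill m (kill m' g) = kill m g := by
  have : (kill m).comp (kill m') = kill m := by
    ext c
    simp only [MonoidHom.comp_apply, kill_of]
    by_cases h1 : c ≤ m'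
    · simp [h1, kill_of]
    · have : ¬ c ≤ m := fun h2 => h1 (h2.trans h)
      simp [h1, this]
  exact DFunLike.congr_fun this g

/-- The inverse limit of the free groups. -/
structure X : Type where
  val : ℕ → FG
  cmp : ∀ m m', m ≤ m' → kill m (val m') = val m

instance : CoeFun X (fun _ => ℕ → FG) := ⟨X.val⟩

theorem X.compat (x : X) {m m' : ℕ} (h : m ≤ m') : kill m (x m') = x m := x.cmp m m' h

theorem X.ext {x y : X} (h : ∀ m, x m = y m) : x = y := by
  cases x; cases y; congr; exact funext h

/-- The reduced word leading from `x` to `y` at level `m`. -/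
def P (m : ℕ) (x y : X) : Wd := ((x m)⁻¹ * y m).toWord

/-- Right multiplication by the generator with index `c`. -/
def shift (c : ℕ) (x : X) : X :=
  ⟨fun m => x m * kill m (FreeGroup.of c), by
    intro m m' h
    rw [map_mul, X.compat x h, kill_kill m m' h]⟩

theorem shift_apply (c : ℕ) (x : X) (m : ℕ) : shift c x m = x m * kill m (FreeGroup.of c) := rfl

/-! Topology: the free group is discrete. -/

instance instTopFG : TopologicalSpace FG := ⊥

instance instDiscFG : DiscreteTopology FG := ⟨rfl⟩

instance instTopX : TopologicalSpace X := TopologicalSpace.induced X.val inferInstance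

instance instCountFG : Countable FG :=
  FreeGroup.toWord_injective.countable

instance instPolFG : PolishSpace FG := inferInstance

instance instPolSeq : PolishSpace (ℕ → FG) := inferInstance

theorem isClosed_range_val : IsClosed (Set.range X.val) := by
  have : Set.range X.val = {x : ℕ → FG | ∀ m m', m ≤ m' → kill m (x m') = x m} := by
    ext x
    constructor
    · rintro ⟨y, rfl⟩; exact y.cmp
    · intro h; exact ⟨⟨x, h⟩, rfl⟩
  rw [this]
  simp only [Set.ofPred_forall]
  refine isClosed_iInter fun m => isClosed_iInter fun m' => isClosed_iInter fun _ => ?_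
  exact isClosed_eq ((continuous_of_discreteTopology (f := kill m)).comp (continuous_apply m'))
    (continuous_apply m)

theorem val_injective : Function.Injective X.val := fun _ _ h => X.ext (fun m => congrFun h m)

theorem isClosedEmbedding_val : Topology.IsClosedEmbedding X.val :=
  ⟨⟨⟨rfl⟩, val_injective⟩, isClosed_range_val⟩

instance instPolX : PolishSpace X := isClosedEmbedding_val.polishSpace

instance instMeasX : MeasurableSpace X := borel X

instance instBorelX : BorelSpace X := ⟨rfl⟩

theorem continuous_coord (m : ℕ) : Continuous (fun x : X => x m) :=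
  (continuous_apply m).comp continuous_induced_dom

/-! The code. -/

/-- positions of the ones: gaps `v 0, v 1, ...` -/
def pos (v : ℕ → ℕ) : ℕ → ℕ
  | 0 => v 0
  | (j + 1) => pos v j + v (j + 1) + 1

def cval (a b : X) (j : ℕ) : ℕ := Encodable.encode (j, (a j).toWord, (b j).toWord)

open Classical in
/-- The code of the pair `(a, b)`. -/
noncomputable def code (a b : X) (k : ℕ) : Bool := decide (∃ j, j ≤ k ∧ pos (cval a b) j = k)

/-! Limit edges. -/

/-- `Lim E n Δ α a b M u w c`: children of a limit edge `a → b`:
`a → u 0` (depth `n`), `b → M`, `u (k+1) → w k`, and `w k → u k` if bit `k` of the code is `1`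
(otherwise `w k = u k`); `M` is the limit of the `u k`. -/
structure Lim (E : ℕ → ℕ → ℕ → X → X → Prop) (n Δ α : ℕ) (a b M : X) (u w : ℕ → X)
    (c : ℕ → ℕ) : Prop where
  r : ∃ αr, αr < α ∧ E n Δ αr a (u 0)
  l : ∃ nl αl, αl < c 0 ∧ E nl α αl b M
  mono : StrictMono c
  F : ∀ k, ∃ nF αF, E nF (c k) αF (u (k + 1)) (w k) ∧
    (code a b k = true → ∃ nH δ αH, αF < δ ∧ E nH δ αH (w k) (u k))
  eqw : ∀ k, code a b k = false → w k = u k
  lim : ∀ k m, m < c k → (u k) m = M m

/-- Post-fixpoints: the properties of the edge relation used for acyclicity. -/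
structure Post (E : ℕ → ℕ → ℕ → X → X → Prop) : Prop where
  base : ∀ Δ α a b, E 0 Δ α a b → α = Δ ∧ b = shift Δ a
  step : ∀ n Δ α a b, E (n + 1) Δ α a b → ∃ M u w c, Lim E n Δ α a b M u w c
  low : ∀ n Δ α a b, E n Δ α a b → ∀ m, m < Δ → a m = b m

/-! The tree definition of the edge relation. -/

/-- labels: tail, head, first level of difference, head letter index, depth -/
abbrev Lab := X × X × ℕ × ℕ × ℕ

def tl (t : Lab) : X := t.1
def hd (t : Lab) : X := t.2.1
def dl (t : Lab) : ℕ := t.2.2.1
def al (t : Lab) : ℕ := t.2.2.2.1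
def dp (t : Lab) : ℕ := t.2.2.2.2

/-- the points `u k` read off from the children -/
def uu (ch : ℕ → Lab) : ℕ → X
  | 0 => hd (ch 0)
  | (k + 1) => tl (ch (2 * k + 2))

/-- local condition at a node with label `t` and children `ch`: child `0` is `a → u 0`,
child `1` is `b → M`, child `2k+2` is `u (k+1) → w k`, child `2k+3` is `w k → u k`. -/
def Node (t : Lab) (ch : ℕ → Lab) : Prop :=
  (∀ m, m < dl t → (tl t) m = (hd t) m) ∧
  ((dp t = 0 ∧ al t = dl t ∧ hd t = shift (dl t) (tl t)) ∨
   (dp t = dp (ch 0) + 1 ∧ dl t = dl (ch 0) ∧ tl (ch 0) = tl t ∧ al (ch 0) < al t ∧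
    dl (ch 1) = al t ∧ tl (ch 1) = hd t ∧ al (ch 1) < dl (ch 2) ∧
    (∀ k, dl (ch (2 * k + 2)) < dl (ch (2 * k + 4))) ∧
    (∀ k, code (tl t) (hd t) k = true →
      tl (ch (2 * k + 3)) = hd (ch (2 * k + 2)) ∧ hd (ch (2 * k + 3)) = uu ch k ∧
      al (ch (2 * k + 2)) < dl (ch (2 * k + 3))) ∧
    (∀ k, code (tl t) (hd t) k = false → hd (ch (2 * k + 2)) = uu ch k) ∧
    (∀ k m, m < dl (ch (2 * k + 2)) → (uu ch k) m = (hd (ch 1)) m)))

/-- good labelled trees; the children of the node `σ` are the nodes `σ ++ [j]` -/
def Good (T : List ℕ → Lab) : Prop := ∀ σ, Node (T σ) (fun j => T (σ ++ [j]))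

/-- The edge relation. -/
def E (n Δ α : ℕ) (a b : X) : Prop := ∃ T : List ℕ → Lab, Good T ∧ T [] = (a, b, Δ, α, n)

def Edge (a b : X) : Prop := ∃ n Δ α, E n Δ α a b

/-- The graph. -/
def G : SimpleGraph X := SimpleGraph.fromRel Edge

/-! Intervals. -/

/-- `z` lies on the interval from `x` to `y` at every level. -/
def Btw (x z y : X) : Prop := ∀ m, P m x y = P m x z ++ P m z y

/-- tame pairs: killing letters in the word of a higher level gives the word of the lower level
without any cancellation -/
def Tame (x y : X) : Prop :=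
  ∀ m m', m ≤ m' → P m x y = (P m' x y).filter (fun p => decide (p.1 ≤ m))

/-- at level `m` the interval from `x` to `y` crosses the elementary edge `h → h γ_c`
in the positive direction -/
def OC (m c : ℕ) (h x y : X) : Prop := ∃ B, P m x y = P m x h ++ (c, true) :: B

/-- crossing at all levels -/
def Cr (c : ℕ) (h x y : X) : Prop := ∀ m, c ≤ m → OC m c h x y

/-- the indices of the main letters of the sequence `u, c` crossed by `(x, y)` -/
def KS (u : ℕ → X) (c : ℕ → ℕ) (x y : X) : Set ℕ := {k | Cr (c k) (u (k + 1)) x y}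

/-! Cantor space. -/

abbrev Cn := ℕ → Bool

/-- `x` below `N`, `z` from `N` on -/
def splice (N : ℕ) (x z : Cn) : Cn := fun i => if i < N then x i else z i

/-- the graph `G_0` of the frozen statement -/
def G0 (s : ℕ → ℕ → Bool) (x y : Cn) : Prop :=
  ∃ n, (∀ i, i < n → x i = s n i ∧ y i = s n i) ∧ x n ≠ y n ∧ ∀ i, n < i → x i = y i

def Dns (s : ℕ → ℕ → Bool) : Prop :=
  ∀ (u : ℕ → Bool) (m : ℕ), ∃ n, m ≤ n ∧ ∀ i, i < m → s n i = u i

/-- continuous homomorphisms from `G_0` -/
def Hom (s : ℕ → ℕ → Bool) (f : Cn → X) : Prop :=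
  Continuous f ∧ ∀ x y, G0 s x y → G.Adj (f x) (f y)

/-- `s n` followed by the bit `β`, followed by `τ` up to `N'`, followed by `z` -/
def pt (s : ℕ → ℕ → Bool) (n : ℕ) (β : Bool) (N' : ℕ) (τ z : Cn) : Cn :=
  fun i => if i < n then s n i else if i = n then β else if i < N' then τ i else z i

end Pool.Agent.W486.AG
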