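import Pool.Agent.W486.AG.ClaimA

/-!
DESC.
-/

set_option autoImplicit false

namespace Pool.Agent.W486.AG

open FreeGroup

/-- `(x', y')` is a sub-interval of `(x, y)`, in the same direction -/
def Sb (x y x' y' : X) : Prop := Btw x x' y ∧ Btw x' y' y

theorem Sb.refl (x y : X) : Sb x y x y := ⟨Btw.left _ _, Btw.right _ _⟩

theorem Sb.trans {x1 y1 x2 y2 x3 y3 : X} (h : Sb x1 y1 x2 y2) (h' : Sb x2 y2 x3 y3) :
    Sb x1 y1 x3 y3 := by
  obtain ⟨h1, h2⟩ := h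
  obtain ⟨h3, h4⟩ := h'
  obtain ⟨h5, h6⟩ := Btw.trans_left h2 h3
  exact ⟨(Btw.trans_right h1 h5).1, (Btw.trans_left h6 h4).1⟩

theorem Sb.len {x y x' y' : X} (h : Sb x y x' y') (m : ℕ) :
    (P m x' y').length ≤ (P m x y).length := by
  have h1 := h.1.length_le m
  have h2 := h.2.length_le m
  omega

theorem Sb.symm {x y x' y' : X} (h : Sb x y x' y') : Sb y x y' x' := by
  obtain ⟨h1, h2⟩ := h
  obtain ⟨h3, h4⟩ := Btw.trans_right h1 h2
  exact ⟨h3.symm, h4.symm⟩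

theorem base_fin {E : ℕ → ℕ → ℕ → X → X → Prop} (hE : Post E) {M : X} {u : ℕ → X} {c : ℕ → ℕ}
    (g : Germ M u c) {Δ α : ℕ} {x y : X} (h : E 0 Δ α x y ∨ E 0 Δ α y x) :
    (KS u c x y).Finite := by
  apply Set.Subsingleton.finite
  have key : ∀ k ∈ KS u c x y, c k = Δ := by
    intro k hk
    obtain ⟨B, hB⟩ := hk (max (c k) Δ) (le_max_left _ _)
    rcases h with h | h
    · obtain ⟨_, rfl⟩ := hE.base _ _ _ _ h
      rw [P_shift _ _ _ (le_max_right _ _)] at hB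
      have h1 : (c k, true) ∈ [(Δ, true)] := by rw [hB]; simp
      simpa using h1
    · obtain ⟨_, rfl⟩ := hE.base _ _ _ _ h
      rw [P_inv _ y, P_shift _ _ _ (le_max_right _ _)] at hB
      have h1 : (c k, true) ∈ invRev [(Δ, true)] := by rw [hB]; simp
      have := mem_invRev h1
      simp at this
  intro k hk k' hk'
  exact g.mono.injective (by rw [key k hk, key k' hk'])

theorem KS_self {u : ℕ → X} {c : ℕ → ℕ} (x : X) : KS u c x x = ∅ := by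
  ext k
  simp only [Set.mem_empty_iff_false, iff_false]
  intro hk
  obtain ⟨B, hB⟩ := hk (c k) le_rfl
  rw [P_self] at hB
  simp at hB

theorem pieces {E : ℕ → ℕ → ℕ → X → X → Prop} (hE : Post E) {n Δ α : ℕ} {s t M : X}
    {u w : ℕ → X} {c : ℕ → ℕ} (L : Lim E n Δ α s t M u w c) (p q : X)
    (h : (p = s ∧ q = u 0) ∨ (p = M ∧ q = t) ∨ (∃ j, p = u j ∧ q = w j) ∨
      (∃ j, p = w j ∧ q = u (j + 1))) :
    Sb s t p q ∧ ∀ m, α ≤ m → (P m p q).length < (P m s t).length := by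
  obtain ⟨b1, b2, b3, b4, b5, b6⟩ := cat E hE _ _ _ _ _ _ _ _ _ L
  obtain ⟨αr, hr1, hr2⟩ := L.r
  obtain ⟨nl, αl, hl1, hl2⟩ := L.l
  have hΔαr : Δ ≤ αr := le_alpha hE _ _ _ _ _ hr2
  have pos1 : ∀ m, α ≤ m → 0 < (P m s (u 0)).length := by
    intro m hm
    obtain ⟨T, eT, _⟩ := (strAt' hE m hr2).1 (by omega)
    rw [eT]; simp
  have pos2 : ∀ m, α ≤ m → 0 < (P m M t).length := by
    intro m hm
    obtain ⟨T, eT, _⟩ := (strAt' hE m hl2).1 (by omega)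
    rw [P_length_comm, eT]; simp
  -- sub-intervals of (u 0, t)
  have rest : ∀ p q, Sb (u 0) t p q → Sb s t p q ∧ ∀ m, α ≤ m →
      (P m p q).length < (P m s t).length := by
    intro p q hpq
    have h1 : Sb s t (u 0) t := ⟨b1, Btw.right _ _⟩
    refine ⟨h1.trans hpq, fun m hm => ?_⟩
    have h2 := hpq.len m
    have h3 := b1.length_le m
    have h4 := pos1 m hm
    omega
  have b7 : ∀ j, Btw (u 0) (u j) t ∧ Btw (u j) M t := fun j => Btw.trans_left b3 (b4 j)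
  have b8 : ∀ j, Btw (u j) (u (j + 1)) t := fun j => (Btw.trans_left (b7 j).2 (b5 j)).1
  have b9 : ∀ j, Btw (u j) (w j) t ∧ Btw (w j) (u (j + 1)) t := fun j =>
    Btw.trans_left (b8 j) (b6 j)
  rcases h with ⟨rfl, rfl⟩ | ⟨rfl, rfl⟩ | ⟨j, rfl, rfl⟩ | ⟨j, rfl, rfl⟩
  · refine ⟨⟨Btw.left _ _, b1⟩, fun m hm => ?_⟩
    have h1 := b1.length_le m
    have h2 := b3.length_le m
    have h3 := pos2 m hm
    omega
  · exact rest _ _ ⟨b3, Btw.right _ _⟩
  · exact rest _ _ ⟨(b7 j).1, (b9 j).1⟩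
  · exact rest _ _ ⟨(Btw.trans_right (b7 j).1 (b9 j).1).1, (b9 j).2⟩

/-- forward: either all pieces are finite or there is a child to descend to -/
theorem childF {E : ℕ → ℕ → ℕ → X → X → Prop} (hE : Post E) {n Δ α : ℕ} {s t M : X}
    {u w : ℕ → X} {c : ℕ → ℕ} (L : Lim E n Δ α s t M u w c) (v : ℕ → X) (d : ℕ → ℕ) :
    FinF v d s t M u ∨ ∃ p q, (KS v d p q).Infinite ∧ Sb s t p q ∧
      (∀ m, α ≤ m → (P m p q).length < (P m s t).length) ∧
      ((∃ αr, E n Δ αr p q) ∨ ∃ n2 Δ2 α2, Δ < Δ2 ∧ E n2 Δ2 α2 q p) := by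
  obtain ⟨b1, b2, b3, b4, b5, b6⟩ := cat E hE _ _ _ _ _ _ _ _ _ L
  have ht : Tame s t := (tame E hE).2 _ _ _ _ _ _ _ _ _ L
  obtain ⟨αr, hr1, hr2⟩ := L.r
  obtain ⟨nl, αl, hl1, hl2⟩ := L.l
  have hΔαr : Δ ≤ αr := le_alpha hE _ _ _ _ _ hr2
  have hααl : α ≤ αl := le_alpha hE _ _ _ _ _ hl2
  have hc : ∀ k, α < c k := fun k => by
    have := L.mono.monotone (Nat.zero_le k)
    omega
  by_cases h1 : (KS v d s (u 0)).Infinite
  · right
    obtain ⟨p1, p2⟩ := pieces hE L s (u 0) (Or.inl ⟨rfl, rfl⟩)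
    exact ⟨s, u 0, h1, p1, p2, Or.inl ⟨αr, hr2⟩⟩
  by_cases h2 : (KS v d M t).Infinite
  · right
    obtain ⟨p1, p2⟩ := pieces hE L M t (Or.inr (Or.inl ⟨rfl, rfl⟩))
    exact ⟨M, t, h2, p1, p2, Or.inr ⟨nl, α, αl, by omega, hl2⟩⟩
  by_cases h3 : ∃ j, (KS v d (u j) (u (j + 1))).Infinite
  · right
    obtain ⟨j, hj⟩ := h3
    have tj : Tame (u j) (u (j + 1)) :=
      (((((ht.sub b1).2).sub b3).1).sub (b4 j)).2.sub (b5 j) |>.1
    have hsub : KS v d (u j) (u (j + 1)) ⊆ KS v d (u j) (w j) ∪ KS v d (w j) (u (j + 1)) :=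
      fun k hk => Cr.split hk (b6 j) tj
    have h4 := hj.mono hsub
    rw [Set.infinite_union] at h4
    obtain ⟨nF, αF, hF, hH⟩ := L.F j
    have hcF : c j ≤ αF := le_alpha hE _ _ _ _ _ hF
    rcases h4 with h4 | h4
    · by_cases hcode : code s t j = true
      · obtain ⟨nH, δ, αH, hδ, hH⟩ := hH hcode
        obtain ⟨p1, p2⟩ := pieces hE L (u j) (w j) (Or.inr (Or.inr (Or.inl ⟨j, rfl, rfl⟩)))
        exact ⟨_, _, h4, p1, p2, Or.inr ⟨nH, δ, αH, by have := hc j; omega, hH⟩⟩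
      · exfalso
        have hw : w j = u j := L.eqw j (by simpa using hcode)
        rw [hw, KS_self] at h4
        exact h4 Set.finite_empty
    · obtain ⟨p1, p2⟩ := pieces hE L (w j) (u (j + 1)) (Or.inr (Or.inr (Or.inr ⟨j, rfl, rfl⟩)))
      exact ⟨_, _, h4, p1, p2, Or.inr ⟨nF, c j, αF, by have := hc j; omega, hF⟩⟩
  · left
    push Not at h1 h2 h3
    exact ⟨h1, h2, h3⟩

theorem childB {E : ℕ → ℕ → ℕ → X → X → Prop} (hE : Post E) {n Δ α : ℕ} {s t M : X}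
    {u w : ℕ → X} {c : ℕ → ℕ} (L : Lim E n Δ α s t M u w c) (v : ℕ → X) (d : ℕ → ℕ) :
    FinB v d s t M u ∨ ∃ p q, (KS v d p q).Infinite ∧ Sb t s p q ∧
      (∀ m, α ≤ m → (P m p q).length < (P m t s).length) ∧
      ((∃ αr, E n Δ αr q p) ∨ ∃ n2 Δ2 α2, Δ < Δ2 ∧ E n2 Δ2 α2 p q) := by
  obtain ⟨b1, b2, b3, b4, b5, b6⟩ := cat E hE _ _ _ _ _ _ _ _ _ L
  have ht : Tame s t := (tame E hE).2 _ _ _ _ _ _ _ _ _ L
  obtain ⟨αr, hr1, hr2⟩ := L.r
  obtain ⟨nl, αl, hl1, hl2⟩ := L.l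
  have hΔαr : Δ ≤ αr := le_alpha hE _ _ _ _ _ hr2
  have hααl : α ≤ αl := le_alpha hE _ _ _ _ _ hl2
  have hc : ∀ k, α < c k := fun k => by
    have := L.mono.monotone (Nat.zero_le k)
    omega
  have flip : ∀ p q, (Sb s t p q ∧ ∀ m, α ≤ m → (P m p q).length < (P m s t).length) →
      (Sb t s q p ∧ ∀ m, α ≤ m → (P m q p).length < (P m t s).length) := by
    rintro p q ⟨h1, h2⟩
    refine ⟨h1.symm, fun m hm => ?_⟩
    rw [P_length_comm m p q, P_length_comm m s t]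
    exact h2 m hm
  by_cases h1 : (KS v d (u 0) s).Infinite
  · right
    obtain ⟨p1, p2⟩ := flip _ _ (pieces hE L s (u 0) (Or.inl ⟨rfl, rfl⟩))
    exact ⟨u 0, s, h1, p1, p2, Or.inl ⟨αr, hr2⟩⟩
  by_cases h2 : (KS v d t M).Infinite
  · right
    obtain ⟨p1, p2⟩ := flip _ _ (pieces hE L M t (Or.inr (Or.inl ⟨rfl, rfl⟩)))
    exact ⟨t, M, h2, p1, p2, Or.inr ⟨nl, α, αl, by omega, hl2⟩⟩
  by_cases h3 : ∃ j, (KS v d (u (j + 1)) (u j)).Infinite
  · right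
    obtain ⟨j, hj⟩ := h3
    have tj : Tame (u j) (u (j + 1)) :=
      (((((ht.sub b1).2).sub b3).1).sub (b4 j)).2.sub (b5 j) |>.1
    have hsub : KS v d (u (j + 1)) (u j) ⊆ KS v d (u (j + 1)) (w j) ∪ KS v d (w j) (u j) :=
      fun k hk => Cr.split hk (b6 j).symm tj.symm
    have h4 := hj.mono hsub
    rw [Set.infinite_union] at h4
    obtain ⟨nF, αF, hF, hH⟩ := L.F j
    have hcF : c j ≤ αF := le_alpha hE _ _ _ _ _ hF
    rcases h4 with h4 | h4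
    · obtain ⟨p1, p2⟩ := flip _ _
        (pieces hE L (w j) (u (j + 1)) (Or.inr (Or.inr (Or.inr ⟨j, rfl, rfl⟩))))
      exact ⟨_, _, h4, p1, p2, Or.inr ⟨nF, c j, αF, by have := hc j; omega, hF⟩⟩
    · by_cases hcode : code s t j = true
      · obtain ⟨nH, δ, αH, hδ, hH⟩ := hH hcode
        obtain ⟨p1, p2⟩ := flip _ _
          (pieces hE L (u j) (w j) (Or.inr (Or.inr (Or.inl ⟨j, rfl, rfl⟩))))
        exact ⟨_, _, h4, p1, p2, Or.inr ⟨nH, δ, αH, by have := hc j; omega, hH⟩⟩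
      · exfalso
        have hw : w j = u j := L.eqw j (by simpa using hcode)
        rw [hw, KS_self] at h4
        exact h4 Set.finite_empty
  · left
    push Not at h1 h2 h3
    exact ⟨h1, h2, h3⟩

def Out (E : ℕ → ℕ → ℕ → X → X → Prop) (u : ℕ → X) (c : ℕ → ℕ) (α : ℕ) (x y : X) : Prop :=
  ∃ n' Δ' α' s t M' u' w' c' x' y', Lim E n' Δ' α' s t M' u' w' c' ∧
    ((x' = s ∧ y' = t ∧ FinF u c s t M' u') ∨ (x' = t ∧ y' = s ∧ FinB u c s t M' u')) ∧
    (KS u c x' y').Infinite ∧ Sb x y x' y' ∧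
    ((x' = x ∧ y' = y) ∨ ∀ m, α ≤ m → (P m x' y').length < (P m x y).length)

theorem Out.up {E : ℕ → ℕ → ℕ → X → X → Prop} {u : ℕ → X} {c : ℕ → ℕ} {α α2 : ℕ} {x y p q : X}
    (ho : Out E u c α2 p q) (hs : Sb x y p q)
    (hl : ∀ m, α ≤ m → (P m p q).length < (P m x y).length) : Out E u c α x y := by
  obtain ⟨n', Δ', α', s, t, M', u', w', c', x', y', h1, h2, h3, h4, _⟩ := ho
  refine ⟨n', Δ', α', s, t, M', u', w', c', x', y', h1, h2, h3, hs.trans h4, Or.inr ?_⟩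
  intro m hm
  exact lt_of_le_of_lt (h4.len m) (hl m hm)

theorem desc_aux {E : ℕ → ℕ → ℕ → X → X → Prop} (hE : Post E) {M : X} {u : ℕ → X} {c : ℕ → ℕ}
    (g : Germ M u c) {x y : X} {ks : ℕ} (hks : ks ∈ KS u c x y) :
    ∀ K n Δ α x1 y1, c ks + 1 - Δ ≤ K → (E n Δ α x1 y1 ∨ E n Δ α y1 x1) → Sb x y x1 y1 →
      (KS u c x1 y1).Infinite → Out E u c α x1 y1 := by
  -- deep nodes are oriented forward
  have cA : ∀ n Δ α x1 y1, E n Δ α y1 x1 → Sb x y x1 y1 → (KS u c x1 y1).Infinite →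
      Δ ≤ c ks := by
    intro n Δ α x1 y1 h hs hinf
    exact claimA M u c g x x1 y1 y ks hks hs.1 hs.2 hinf Δ (hE.low _ _ _ _ _ h)
      (fun m hm => (strAt' hE m h).1 hm)
  intro K
  induction K with
  | zero =>
    intro n
    induction n with
    | zero =>
      intro Δ α x1 y1 _ h _ hinf
      exact absurd (base_fin hE g h) hinf
    | succ n ih =>
      intro Δ α x1 y1 hK h hs hinf
      have hf : E (n + 1) Δ α x1 y1 := by
        rcases h with h | h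
        · exact h
        · have := cA _ _ _ _ _ h hs hinf
          omega
      obtain ⟨M', u', w', c', L⟩ := hE.step _ _ _ _ _ hf
      rcases childF hE L u c with hF | ⟨p, q, h1, h2, h3, h4⟩
      · exact ⟨_, _, _, _, _, _, _, _, _, x1, y1, L, Or.inl ⟨rfl, rfl, hF⟩, hinf, Sb.refl _ _,
          Or.inl ⟨rfl, rfl⟩⟩
      · rcases h4 with ⟨αr, h4⟩ | ⟨n2, Δ2, α2, h5, h4⟩
        · exact (ih Δ αr p q hK (Or.inl h4) (hs.trans h2) h1).up h2 h3
        · exfalso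
          have := cA _ _ _ _ _ h4 (hs.trans h2) h1
          omega
  | succ K ihK =>
    intro n
    induction n with
    | zero =>
      intro Δ α x1 y1 _ h _ hinf
      exact absurd (base_fin hE g h) hinf
    | succ n ih =>
      intro Δ α x1 y1 hK h hs hinf
      rcases h with h | h
      · obtain ⟨M', u', w', c', L⟩ := hE.step _ _ _ _ _ h
        rcases childF hE L u c with hF | ⟨p, q, h1, h2, h3, h4⟩
        · exact ⟨_, _, _, _, _, _, _, _, _, x1, y1, L, Or.inl ⟨rfl, rfl, hF⟩, hinf, Sb.refl _ _,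
            Or.inl ⟨rfl, rfl⟩⟩
        · rcases h4 with ⟨αr, h4⟩ | ⟨n2, Δ2, α2, h5, h4⟩
          · exact (ih Δ αr p q hK (Or.inl h4) (hs.trans h2) h1).up h2 h3
          · exact (ihK n2 Δ2 α2 p q (by omega) (Or.inr h4) (hs.trans h2) h1).up h2 h3
      · obtain ⟨M', u', w', c', L⟩ := hE.step _ _ _ _ _ h
        rcases childB hE L u c with hF | ⟨p, q, h1, h2, h3, h4⟩
        · exact ⟨_, _, _, _, _, _, _, _, _, x1, y1, L, Or.inr ⟨rfl, rfl, hF⟩, hinf, Sb.refl _ _,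
            Or.inl ⟨rfl, rfl⟩⟩
        · rcases h4 with ⟨αr, h4⟩ | ⟨n2, Δ2, α2, h5, h4⟩
          · exact (ih Δ αr p q hK (Or.inr h4) (hs.trans h2) h1).up h2 h3
          · exact (ihK n2 Δ2 α2 p q (by omega) (Or.inl h4) (hs.trans h2) h1).up h2 h3

theorem desc : S_DESC := by
  intro E hE M u c g n Δ α x y h hinf
  obtain ⟨ks, hks⟩ := hinf.nonempty
  obtain ⟨n', Δ', α', s, t, M', u', w', c', x', y', h1, h2, h3, _, h5⟩ :=
    desc_aux hE g hks _ n Δ α x y le_rfl h (Sb.refl _ _) hinf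
  exact ⟨n', Δ', α', s, t, M', u', w', c', x', y', h1, h2, h3, h5⟩

end Pool.Agent.W486.AG
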