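import Pool.Agent.W486.AG.Str

/-!
REC: limit edges define germs.  GERMEQ: germs which meet are equal from there on.
-/

set_option autoImplicit false

namespace Pool.Agent.W486.AG

open FreeGroup

theorem germ_rec : S_REC := by
  intro E hE n Δ α a b M u w c L
  have V := fun m => lv' hE L m
  have hcm : ∀ k, c k < c (k + 1) := fun k => L.mono (Nat.lt_succ_self k)
  have main : ∀ m k, c k ≤ m →
    ∃ T, P m M (u k) = P m M (u (k + 1)) ++ (c k, true) :: T ∧ ∀ p ∈ T, c k < p.1 := by
    intro m k hk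
    obtain ⟨T, eT, gT⟩ := (V m).blk1 k hk
    exact ⟨T, by rw [(V m).chain k, eT], gT⟩
  refine ⟨L.mono, L.lim, fun m k => (V m).ge k, main, ?_⟩
  have key : ∀ m j k, m < c (k + j) → ∀ A i s B, P m M (u k) = A ++ (i, s) :: B →
      (∀ p ∈ A, i < p.1) → s = true ∧ ∃ j, k ≤ j ∧ i = c j ∧ A = P m M (u (j + 1)) := by
    intro m j
    induction j with
    | zero =>
      intro k hk A i s B e hA
      have hk : m < c k := hk
      have h1 : P m M (u k) = [] := P_nil.2 (L.lim k m hk).symm
      rw [h1] at e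
      simp at e
    | succ j ih =>
      intro k hk A i s B e hA
      by_cases hck : c k ≤ m
      · obtain ⟨T, eT, gT⟩ := main m k hck
        rw [eT] at e
        rcases List.append_eq_append_iff.1 e with ⟨C, h1, h2⟩ | ⟨C, h1, h2⟩
        · -- A = P m M (u (k+1)) ++ C, (c k,true)::T = C ++ (i,s)::B
          rcases C with _ | ⟨q, C⟩
          · simp only [List.nil_append, List.cons.injEq, Prod.mk.injEq] at h2
            refine ⟨h2.1.2.symm, k, le_rfl, h2.1.1.symm, by simpa using h1⟩
          · exfalso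
            simp only [List.cons_append, List.cons.injEq] at h2
            have h3 : (i, s) ∈ T := by rw [h2.2]; simp
            have h4 := gT _ h3
            have h5 : q ∈ A := by rw [h1]; simp
            have h6 := hA q h5
            rw [← h2.1] at h6
            simp only at h4 h6
            omega
        · -- P m M (u (k+1)) = A ++ C, (i,s)::B = C ++ (c k,true)::T
          rcases C with _ | ⟨q, C⟩
          · simp only [List.nil_append, List.cons.injEq, Prod.mk.injEq] at h2
            refine ⟨h2.1.2, k, le_rfl, h2.1.1, by simpa using h1.symm⟩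
          · simp only [List.cons_append, List.cons.injEq] at h2
            rw [← h2.1] at h1
            obtain ⟨r1, j', r2, r3, r4⟩ := ih (k + 1)
              (by rw [Nat.add_right_comm k 1 j]; exact hk) A i s C h1 hA
            exact ⟨r1, j', by omega, r3, r4⟩
      · have h1 : P m M (u k) = [] := P_nil.2 (L.lim k m (by omega)).symm
        rw [h1] at e
        simp at e
  intro m k
  apply key m (m + 1) k
  have := L.mono.le_apply (x := k + (m + 1))
  omega

/-- prefixes in a germ -/
theorem Germ.pre {M : X} {u : ℕ → X} {c : ℕ → ℕ} (g : Germ M u c) {m : ℕ} :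
    ∀ i k, c (k + i) ≤ m → ∃ T, P m M (u k) = P m M (u (k + i)) ++ T := by
  intro i
  induction i with
  | zero => intro k _; exact ⟨[], by simp⟩
  | succ i ih =>
    intro k hk
    obtain ⟨T, e⟩ := ih k (le_trans (g.mono.monotone (by omega)) hk)
    obtain ⟨T', e', _⟩ := g.main m (k + i) (le_trans (g.mono.monotone (by omega)) hk)
    refine ⟨(c (k + i), true) :: T' ++ T, ?_⟩
    rw [e, e']
    simp [Nat.add_assoc]

/-- the main letter `c i` in `P m M (u k)`, `k ≤ i` -/
theorem Germ.letter {M : X} {u : ℕ → X} {c : ℕ → ℕ} (g : Germ M u c) {m i k : ℕ} (hki : k ≤ i)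
    (hi : c i ≤ m) : ∃ T, P m M (u k) = P m M (u (i + 1)) ++ (c i, true) :: T := by
  obtain ⟨j, rfl⟩ := Nat.exists_eq_add_of_le hki
  obtain ⟨T, e⟩ := g.pre j k hi
  obtain ⟨T', e', _⟩ := g.main m (k + j) hi
  exact ⟨T' ++ T, by rw [e, e']; simp⟩

theorem Germ.gt {M : X} {u : ℕ → X} {c : ℕ → ℕ} (g : Germ M u c) {m i : ℕ} :
    ∀ p ∈ P m M (u (i + 1)), c i < p.1 := fun p hp =>
  lt_of_lt_of_le (g.mono (Nat.lt_succ_self i)) (g.ge m (i + 1) p hp)

theorem germEq_aux {M : X} {u : ℕ → X} {c : ℕ → ℕ} {u' : ℕ → X} {c' : ℕ → ℕ}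
    (g : Germ M u c) (g' : Germ M u' c') {k j : ℕ} (h : u k = u' j) {i : ℕ} (hi : k ≤ i) :
    ∃ j', j ≤ j' ∧ c i = c' j' ∧ u (i + 1) = u' (j' + 1) := by
  have key : ∀ m, c i ≤ m → ∃ j', j ≤ j' ∧ c i = c' j' ∧ (u (i + 1)) m = (u' (j' + 1)) m := by
    intro m hm
    obtain ⟨T, e⟩ := g.letter hi hm
    rw [h] at e
    obtain ⟨_, j', h1, h2, h3⟩ := g'.recs m j _ _ _ _ e g.gt
    exact ⟨j', h1, h2, P_inj_right h3⟩
  obtain ⟨j', h1, h2, _⟩ := key (c i) le_rfl
  refine ⟨j', h1, h2, eq_of_frequently fun N => ?_⟩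
  obtain ⟨j'', h3, h4, h5⟩ := key (max (c i) N) (le_max_left _ _)
  have : j'' = j' := g'.mono.injective (by rw [← h4, ← h2])
  subst this
  exact ⟨_, le_max_right _ _, h5⟩

theorem germEq : S_GERMEQ := by
  intro M u c u' c' g g' k j h
  have hr : Set.range (fun i => c (k + i)) = Set.range (fun i => c' (j + i)) := by
    ext x
    constructor
    · rintro ⟨i, rfl⟩
      obtain ⟨j', h1, h2, _⟩ := germEq_aux g g' h (i := k + i) (by omega)
      obtain ⟨i', rfl⟩ := Nat.exists_eq_add_of_le h1
      exact ⟨i', h2.symm⟩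
    · rintro ⟨i, rfl⟩
      obtain ⟨j', h1, h2, _⟩ := germEq_aux g' g h.symm (i := j + i) (by omega)
      obtain ⟨i', rfl⟩ := Nat.exists_eq_add_of_le h1
      exact ⟨i', h2.symm⟩
  have m1 : StrictMono (fun i => c (k + i)) := fun x y hxy => g.mono (by omega)
  have m2 : StrictMono (fun i => c' (j + i)) := fun x y hxy => g'.mono (by omega)
  have he : ∀ i, c (k + i) = c' (j + i) := fun i => congrFun ((m1.range_inj m2).1 hr) i
  intro i
  refine ⟨?_, he i⟩
  rcases i with _ | i
  · exact h
  · obtain ⟨j', h1, h2, h3⟩ := germEq_aux g g' h (i := k + i) (by omega)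
    have : j' = j + i := g'.mono.injective (by rw [← h2, he i])
    subst this
    exact h3

end Pool.Agent.W486.AG
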