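import Pool.Agent.W486.AG.Defs

/-!
Statements of the parts of the project (see `Defs.lean`).
-/

set_option autoImplicit false

namespace Pool.Agent.W486.AG

/-! ### A. Words and edges -/

/-- STR: the structure of the words of an edge. -/
def S_STR : Prop := ∀ E, Post E → ∀ n Δ α a b, E n Δ α a b →
  Δ ≤ α ∧ ∀ m, (Δ ≤ m → ∃ T, P m a b = (Δ, true) :: T ∧ ∀ p ∈ T, Δ < p.1) ∧
    (α ≤ m → ∃ T s, P m a b = T ++ [(α, s)]) ∧
    (∀ T s, Δ < m → P m a b = T ++ [(m, s)] → s = false)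

/-- CAT: the interval of a limit edge is the concatenation of the intervals of the children. -/
def S_CAT : Prop := ∀ E, Post E → ∀ n Δ α a b M u w c, Lim E n Δ α a b M u w c →
  Btw a (u 0) b ∧ Btw a M b ∧ Btw (u 0) M b ∧ (∀ k, Btw (u 0) (u k) M) ∧
    (∀ k, Btw (u k) (u (k + 1)) M) ∧ ∀ k, Btw (u k) (w k) (u (k + 1))

/-- TAME: edges are tame. -/
def S_TAME : Prop := ∀ E, Post E →
  (∀ n Δ α a b, E n Δ α a b → Tame a b) ∧
  (∀ n Δ α a b M u w c, Lim E n Δ α a b M u w c → Tame a b)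

/-- The properties of the sequence `u k → M` used below. -/
structure Germ (M : X) (u : ℕ → X) (c : ℕ → ℕ) : Prop where
  mono : StrictMono c
  lim : ∀ k m, m < c k → (u k) m = M m
  ge : ∀ m k, ∀ p ∈ P m M (u k), c k ≤ p.1
  main : ∀ m k, c k ≤ m →
    ∃ T, P m M (u k) = P m M (u (k + 1)) ++ (c k, true) :: T ∧ ∀ p ∈ T, c k < p.1
  recs : ∀ m k A i s B, P m M (u k) = A ++ (i, s) :: B → (∀ p ∈ A, i < p.1) →
    s = true ∧ ∃ j, k ≤ j ∧ i = c j ∧ A = P m M (u (j + 1))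

/-- REC: limit edges define germs. -/
def S_REC : Prop := ∀ E, Post E → ∀ n Δ α a b M u w c, Lim E n Δ α a b M u w c → Germ M u c

/-! ### B. Acyclicity -/

/-- A: an ordered edge `(x, y)` deep inside `(x0, y0)` whose head is `x` cannot cross infinitely
many main letters of a germ. -/
def S_CLAIMA : Prop := ∀ (M : X) (u : ℕ → X) (c : ℕ → ℕ), Germ M u c →
  ∀ (x0 x y y0 : X) (ks : ℕ), ks ∈ KS u c x0 y0 → Btw x0 x y0 → Btw x y y0 →
    (KS u c x y).Infinite → ∀ Δ : ℕ, (∀ m, m < Δ → y m = x m) →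
    (∀ m, Δ ≤ m → ∃ T, P m y x = (Δ, true) :: T ∧ ∀ p ∈ T, Δ < p.1) →
    Δ ≤ c ks

/-- the main letters crossed by the children of a limit edge, traversed from `s` to `t`, are
finite in number for each child -/
def FinF (v : ℕ → X) (d : ℕ → ℕ) (s t M' : X) (u' : ℕ → X) : Prop :=
  (KS v d s (u' 0)).Finite ∧ (KS v d M' t).Finite ∧ ∀ j, (KS v d (u' j) (u' (j + 1))).Finite

/-- the same, traversed from `t` to `s` -/
def FinB (v : ℕ → X) (d : ℕ → ℕ) (s t M' : X) (u' : ℕ → X) : Prop :=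
  (KS v d (u' 0) s).Finite ∧ (KS v d t M').Finite ∧ ∀ j, (KS v d (u' (j + 1)) (u' j)).Finite

/-- DESC: descent in the tree of an edge which crosses infinitely many main letters. -/
def S_DESC : Prop := ∀ E, Post E → ∀ (M : X) (u : ℕ → X) (c : ℕ → ℕ), Germ M u c →
  ∀ n Δ α x y, (E n Δ α x y ∨ E n Δ α y x) → (KS u c x y).Infinite →
    ∃ n' Δ' α' s t M' u' w' c' x' y', Lim E n' Δ' α' s t M' u' w' c' ∧
      ((x' = s ∧ y' = t ∧ FinF u c s t M' u') ∨ (x' = t ∧ y' = s ∧ FinB u c s t M' u')) ∧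
      (KS u c x' y').Infinite ∧
      ((x' = x ∧ y' = y) ∨ ∀ m, α ≤ m → (P m x' y').length < (P m x y).length)

/-- CASE2: the node found in DESC is the edge itself. -/
def S_CASE2 : Prop := ∀ E, Post E →
  ∀ n Δ α a b M u w c, Lim E n Δ α a b M u w c →
  ∀ n' Δ' α' s t M' u' w' c', Lim E n' Δ' α' s t M' u' w' c' →
  ∀ x y, ((x = s ∧ y = t ∧ FinF u c s t M' u') ∨ (x = t ∧ y = s ∧ FinB u c s t M' u')) →
    (KS u c x y).Infinite → a = s ∧ b = t

/-- GERMEQ: two germs which meet are equal from there on. -/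
def S_GERMEQ : Prop := ∀ (M : X) (u : ℕ → X) (c : ℕ → ℕ) (u' : ℕ → X) (c' : ℕ → ℕ),
  Germ M u c → Germ M u' c' → ∀ k j, u k = u' j →
    ∀ i, u (k + i) = u' (j + i) ∧ c (k + i) = c' (j + i)

/-- BITS: an edge is not a swapped pair of edges. -/
def S_BITS : Prop := ∀ E, Post E → ∀ (t v h : X) (n n1 n2 Δ Δ1 δ α α1 α2 : ℕ),
  E n Δ α t h → E n1 Δ1 α1 t v → E n2 δ α2 v h → Δ < δ → α1 < δ → False

/-- the side of `x` with respect to the elementary edge `h → h γ_c` at level `m` -/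
def side (m c : ℕ) (h x : X) : Prop := ∃ T, P m h x = (c, true) :: T

/-- SIDE -/
def S_SIDE : Prop := ∀ (m c : ℕ) (h x y : X),
  (OC m c h x y ↔ (¬ side m c h x ∧ side m c h y))

/-- WALK: a cycle changes sides at least twice. -/
def S_WALK : Prop := ∀ (V : Type) (G : SimpleGraph V) (v : V) (p : G.Walk v v), p.IsCycle →
  ∀ (S : V → Prop) (x y : V), s(x, y) ∈ p.edges → S x → ¬ S y →
    ∃ x' y', s(x', y') ∈ p.edges ∧ s(x', y') ≠ s(x, y) ∧ S x' ∧ ¬ S y'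

/-- ACYC -/
def S_ACYC : Prop := ∀ E, Post E →
  (SimpleGraph.fromRel (fun a b => ∃ n Δ α, E n Δ α a b)).IsAcyclic

/-! ### C. Code, trees, analyticity, chromatic number -/

def S_CODE1 : Prop := ∀ k, Continuous (fun p : X × X => code p.1 p.2 k)

def S_CODE2 : Prop := ∀ (a b a' b' : X) (p q : ℕ),
  (∀ n, code a b (p + n) = code a' b' (q + n)) → a = a' ∧ b = b'

def S_TREE : Prop := Post E ∧ (∀ Δ a, E 0 Δ Δ a (shift Δ a)) ∧
  ∀ n Δ α a b M u w c, Lim E n Δ α a b M u w c → E (n + 1) Δ α a b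

def S_ANA : Prop := MeasureTheory.AnalyticSet {p : X × X | G.Adj p.1 p.2}

def S_CHR : Prop := ¬ ∃ c : X → ℕ, Measurable c ∧ ∀ x y, G.Adj x y → c x ≠ c y

/-! ### D. Hitting -/

/-- INS: insertion of one new edge at the vertex `v` (known up to `N`) -/
def S_INS : Prop := ∀ (s : ℕ → ℕ → Bool) (f : Cn → X), Dns s → Hom s f →
  ∀ (v : Cn) (N c : ℕ), ∃ (n : ℕ) (ε : Bool) (N' : ℕ) (τ : Cn) (Δ A : ℕ),
    N ≤ n ∧ n < N' ∧ (∀ i, i < N → s n i = v i) ∧ c < Δ ∧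
    ∀ z, ∃ d α, α ≤ A ∧ E d Δ α (f (pt s n (!ε) N' τ z)) (f (pt s n ε N' τ z))

/-- the conditions on the result of one step: a block is inserted at the vertex `μ` -/
def StepOK (f : Cn → X) (N : ℕ) (α β μ : Cn) (bit : Bool) (c : ℕ)
    (N' : ℕ) (α' β' μ' w' : Cn) (c' : ℕ) : Prop :=
  N < N' ∧ c < c' ∧ (∀ i, i < N → α' i = α i ∧ β' i = β i ∧ μ' i = μ i ∧ w' i = μ i) ∧
  (∀ i, N ≤ i → i < N' → μ' i = β' i) ∧ (∃ i, N ≤ i ∧ i < N' ∧ α' i ≠ β' i) ∧
  ∀ z, ∃ d αF, E d c' αF (f (splice N' μ' z)) (f (splice N' w' z)) ∧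
    (bit = true → ∃ d' δ αH, αF < δ ∧
      E d' δ αH (f (splice N' w' z)) (f (splice N μ (splice N' α' z)))) ∧
    (bit = false → splice N' w' z = splice N μ (splice N' α' z))

def S_STEP : Prop := ∀ (s : ℕ → ℕ → Bool) (f : Cn → X), Dns s → Hom s f →
  ∀ (N : ℕ) (α β μ : Cn) (bit : Bool) (c L : ℕ), ∃ N' α' β' μ' w' c',
    L ≤ N' ∧ StepOK f N α β μ bit c N' α' β' μ' w' c'

def S_INIT : Prop := ∀ (s : ℕ → ℕ → Bool) (f : Cn → X), Dns s → Hom s f →
  ∀ L : ℕ, ∃ (N : ℕ) (α β μ : Cn) (Δr A Δl c : ℕ), L ≤ N ∧ A < Δl ∧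
    (∀ z, ∃ d αr, αr ≤ A ∧ E d Δr αr (f (splice N α z)) (f (splice N μ z))) ∧
    ∀ z, ∃ d αl, αl ≤ c ∧ E d Δl αl (f (splice N β z)) (f (splice N μ z))

/-- HIT: every continuous homomorphism from `G_0` produces an edge between points which differ
at infinitely many coordinates. -/
def S_HIT : Prop := ∀ (s : ℕ → ℕ → Bool) (f : Cn → X), Dns s → Hom s f →
  ∃ x y : Cn, Edge (f x) (f y) ∧ {i | x i ≠ y i}.Infinite

end Pool.Agent.W486.AG
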