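import Pool.Agent.W486.AG.Word

/-!
STR, CAT and TAME.
-/

set_option autoImplicit false

namespace Pool.Agent.W486.AG

open FreeGroup

theorem le_alpha {E : ℕ → ℕ → ℕ → X → X → Prop} (hE : Post E) :
    ∀ n Δ α a b, E n Δ α a b → Δ ≤ α := by
  intro n
  induction n with
  | zero => intro Δ α a b h; exact (hE.base _ _ _ _ h).1.ge
  | succ n ih =>
    intro Δ α a b h
    obtain ⟨M, u, w, c, L⟩ := hE.step _ _ _ _ _ h
    obtain ⟨αr, h1, h2⟩ := L.r
    exact (ih _ _ _ _ h2).trans h1.le

def StrAt (m Δ α : ℕ) (a b : X) : Prop :=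
  (Δ ≤ m → ∃ T, P m a b = (Δ, true) :: T ∧ ∀ p ∈ T, Δ < p.1) ∧
    (α ≤ m → ∃ T s, P m a b = T ++ [(α, s)]) ∧
    (∀ T s, Δ < m → P m a b = T ++ [(m, s)] → s = false)

structure LV (m α : ℕ) (a b M : X) (u w : ℕ → X) (c : ℕ → ℕ) : Prop where
  blk : ∀ k, P m (u (k + 1)) (u k) = P m (u (k + 1)) (w k) ++ P m (w k) (u k)
  blk1 : ∀ k, c k ≤ m → ∃ T, P m (u (k + 1)) (u k) = (c k, true) :: T ∧ ∀ p ∈ T, c k < p.1
  chain : ∀ k, P m M (u k) = P m M (u (k + 1)) ++ P m (u (k + 1)) (u k)
  ge : ∀ k, ∀ p ∈ P m M (u k), c k ≤ p.1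
  geb : ∀ p ∈ P m (u 0) b, α ≤ p.1
  j2 : P m (u 0) b = P m (u 0) M ++ P m M b
  j1 : P m a b = P m a (u 0) ++ P m (u 0) b

theorem mem_invRev {p : ℕ × Bool} {L : Wd} (h : p ∈ invRev L) : (p.1, !p.2) ∈ L := by
  unfold invRev at h
  rw [List.mem_reverse, List.mem_map] at h
  obtain ⟨q, hq, rfl⟩ := h
  simpa using hq

theorem P_ge_symm {m d : ℕ} {x y : X} (h : ∀ p ∈ P m x y, d ≤ p.1) :
    ∀ p ∈ P m y x, d ≤ p.1 := by
  intro p hp
  rw [P_inv m x y] at hp
  have := h _ (mem_invRev hp)
  simpa using this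

theorem lv {E : ℕ → ℕ → ℕ → X → X → Prop} (hE : Post E) {n Δ α : ℕ} {a b M : X} {u w : ℕ → X}
    {c : ℕ → ℕ} (L : Lim E n Δ α a b M u w c) (m : ℕ)
    (hS : ∀ n' Δ' α' a' b', (Δ < Δ' ∨ (Δ' = Δ ∧ n' = n)) → E n' Δ' α' a' b' →
      StrAt m Δ' α' a' b') : LV m α a b M u w c := by
  obtain ⟨αr, hr1, hr2⟩ := L.r
  obtain ⟨nl, αl, hl1, hl2⟩ := L.l
  have hΔαr : Δ ≤ αr := le_alpha hE _ _ _ _ _ hr2
  have hααl : α ≤ αl := le_alpha hE _ _ _ _ _ hl2
  have Sr := hS _ _ _ _ _ (Or.inr ⟨rfl, rfl⟩) hr2
  have Sl := hS _ _ _ _ _ (Or.inl (by omega)) hl2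
  have hc : ∀ k, α < c k := fun k => by
    have := L.mono.monotone (Nat.zero_le k)
    omega
  have hcm : ∀ k, c k < c (k + 1) := fun k => L.mono (Nat.lt_succ_self k)
  -- the blocks
  have hblk : ∀ k, P m (u (k + 1)) (u k) = P m (u (k + 1)) (w k) ++ P m (w k) (u k) ∧
      (c k ≤ m → ∃ T, P m (u (k + 1)) (u k) = (c k, true) :: T ∧ ∀ p ∈ T, c k < p.1) := by
    intro k
    obtain ⟨nF, αF, hF, hH⟩ := L.F k
    have hcF : c k ≤ αF := le_alpha hE _ _ _ _ _ hF
    have SF := hS _ _ _ _ _ (Or.inl (by have := hc k; omega)) hF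
    by_cases hcode : code a b k = true
    · obtain ⟨nH, δ, αH, hδ, hH⟩ := hH hcode
      have SH := hS _ _ _ _ _ (Or.inl (by have := hc k; omega)) hH
      by_cases hm : δ ≤ m
      · obtain ⟨TH, eH, gH⟩ := SH.1 hm
        obtain ⟨TF, s, eF⟩ := SF.2.1 (by omega)
        have e : P m (u (k + 1)) (u k) = P m (u (k + 1)) (w k) ++ P m (w k) (u k) := by
          apply P_append
          apply isReduced_append_of_ne (P_red _ _ _) (P_red _ _ _)
          intro p hp q hq
          rw [eF] at hp
          rw [eH] at hq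
          simp only [List.getLast?_append, List.getLast?_singleton, Option.some_or,
            Option.mem_def, Option.some.injEq] at hp
          simp only [List.head?_cons, Option.mem_def, Option.some.injEq] at hq
          subst hp; subst hq
          simp only
          omega
        refine ⟨e, fun hck => ?_⟩
        obtain ⟨T, eT, gT⟩ := SF.1 hck
        refine ⟨T ++ P m (w k) (u k), by rw [e, eT]; rfl, ?_⟩
        intro p hp
        rcases List.mem_append.1 hp with hp | hp
        · exact gT p hp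
        · rw [eH] at hp
          rcases List.mem_cons.1 hp with rfl | hp
          · simp only; omega
          · have := gH p hp; omega
      · have hlow := hE.low _ _ _ _ _ hH m (by omega)
        have h0 : P m (w k) (u k) = [] := P_nil.2 hlow
        have e : P m (u (k + 1)) (u k) = P m (u (k + 1)) (w k) ++ P m (w k) (u k) := by
          rw [h0, List.append_nil]
          exact P_congr rfl hlow.symm
        refine ⟨e, fun hck => ?_⟩
        obtain ⟨T, eT, gT⟩ := SF.1 hck
        exact ⟨T, by rw [e, h0, eT, List.append_nil], gT⟩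
    · have hw : w k = u k := L.eqw k (by simpa using hcode)
      rw [hw]
      refine ⟨by simp [P_self], fun hck => ?_⟩
      rw [hw] at SF
      exact SF.1 hck
  -- chain and ge
  have hcg : ∀ j k, m < c (k + j) →
      (P m M (u k) = P m M (u (k + 1)) ++ P m (u (k + 1)) (u k)) ∧
        ∀ p ∈ P m M (u k), c k ≤ p.1 := by
    intro j
    induction j with
    | zero =>
      intro k hk
      have hk : m < c k := hk
      have h1 : u k m = M m := L.lim k m hk
      have h2 : u (k + 1) m = M m := L.lim (k + 1) m (by have := hcm k; omega)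
      have e1 : P m M (u k) = [] := P_nil.2 h1.symm
      have e2 : P m M (u (k + 1)) = [] := P_nil.2 h2.symm
      have e3 : P m (u (k + 1)) (u k) = [] := P_nil.2 (h2.trans h1.symm)
      rw [e1, e2, e3]
      simp
    | succ j ih =>
      intro k hk
      by_cases hck : c k ≤ m
      · obtain ⟨ih1, ih2⟩ := ih (k + 1) (by rw [Nat.add_right_comm k 1 j]; exact hk)
        obtain ⟨T, eT, gT⟩ := (hblk k).2 hck
        have e : P m M (u k) = P m M (u (k + 1)) ++ P m (u (k + 1)) (u k) := by
          apply P_append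
          apply isReduced_append_of_ne (P_red _ _ _) (P_red _ _ _)
          intro p hp q hq
          have hp' := ih2 p (List.mem_of_getLast? hp)
          rw [eT] at hq
          simp only [List.head?_cons, Option.mem_def, Option.some.injEq] at hq
          subst hq
          have := hcm k
          simp only
          omega
        refine ⟨e, ?_⟩
        intro p hp
        rw [e] at hp
        rcases List.mem_append.1 hp with hp | hp
        · have := ih2 p hp
          have := hcm k
          omega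
        · rw [eT] at hp
          rcases List.mem_cons.1 hp with rfl | hp
          · exact le_refl _
          · exact (gT p hp).le
      · have hck : m < c k := by omega
        have h1 : u k m = M m := L.lim k m hck
        have h2 : u (k + 1) m = M m :=
          L.lim (k + 1) m (by have := hcm k; omega)
        have e1 : P m M (u k) = [] := P_nil.2 h1.symm
        have e2 : P m M (u (k + 1)) = [] := P_nil.2 h2.symm
        have e3 : P m (u (k + 1)) (u k) = [] := P_nil.2 (h2.trans h1.symm)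
        rw [e1, e2, e3]
        simp
  have hbig : ∀ k, m < c (k + (m + 1)) := fun k => by
    have := L.mono.le_apply (x := k + (m + 1))
    omega
  have chain := fun k => (hcg (m + 1) k (hbig k)).1
  have ge := fun k => (hcg (m + 1) k (hbig k)).2
  have ge0 : ∀ p ∈ P m (u 0) M, c 0 ≤ p.1 := P_ge_symm (ge 0)
  have gel : ∀ p ∈ P m M b, α ≤ p.1 := by
    apply P_ge_symm
    intro p hp
    by_cases hm : α ≤ m
    · obtain ⟨T, eT, gT⟩ := Sl.1 hm
      rw [eT] at hp
      rcases List.mem_cons.1 hp with rfl | hp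
      · exact le_refl _
      · exact (gT p hp).le
    · have : P m b M = [] := P_nil.2 (hE.low _ _ _ _ _ hl2 m (by omega))
      rw [this] at hp
      simp at hp
  have j2 : P m (u 0) b = P m (u 0) M ++ P m M b := by
    apply P_append
    apply isReduced_append_of_ne (P_red _ _ _) (P_red _ _ _)
    intro p hp q hq
    have hp1 := ge0 p (List.mem_of_getLast? hp)
    have hp2 := P_le (List.mem_of_getLast? hp)
    obtain ⟨T, s, eT⟩ := Sl.2.1 (by omega)
    rw [P_inv m b M, eT] at hq
    simp only [invRev, List.map_append, List.map_cons, List.map_nil, List.reverse_append,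
      List.reverse_cons, List.reverse_nil, List.nil_append, List.cons_append, List.head?_cons,
      Option.mem_def, Option.some.injEq] at hq
    subst hq
    simp only
    omega
  have geb : ∀ p ∈ P m (u 0) b, α ≤ p.1 := by
    intro p hp
    rw [j2] at hp
    rcases List.mem_append.1 hp with hp | hp
    · have := ge0 p hp
      have := hc 0
      omega
    · exact gel p hp
  refine ⟨fun k => (hblk k).1, fun k => (hblk k).2, chain, ge, geb, j2, ?_⟩
  apply P_append
  apply isReduced_append_of_ne (P_red _ _ _) (P_red _ _ _)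
  intro p hp q hq
  have hq1 := geb q (List.mem_of_mem_head? hq)
  have hq2 := P_le (List.mem_of_mem_head? hq)
  obtain ⟨T, s, eT⟩ := Sr.2.1 (by omega)
  rw [eT] at hp
  simp only [List.getLast?_append, List.getLast?_singleton, Option.some_or,
    Option.mem_def, Option.some.injEq] at hp
  subst hp
  simp only
  omega

theorem strAt_of_lt {m Δ α : ℕ} {a b : X} (h : m < Δ) (h' : Δ ≤ α) : StrAt m Δ α a b :=
  ⟨fun h1 => absurd h1 (by omega), fun h1 => absurd h1 (by omega), fun _ _ h1 => absurd h1 (by omega)⟩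

theorem P_shift (m c : ℕ) (a : X) (h : c ≤ m) : P m a (shift c a) = [(c, true)] := by
  unfold P
  rw [shift_apply, kill_of, if_pos h]
  simp

theorem strAt_step {E : ℕ → ℕ → ℕ → X → X → Prop} (hE : Post E) {n Δ α : ℕ} {a b M : X}
    {u w : ℕ → X} {c : ℕ → ℕ} (L : Lim E n Δ α a b M u w c) (m : ℕ)
    (hS : ∀ n' Δ' α' a' b', (Δ < Δ' ∨ (Δ' = Δ ∧ n' = n)) → E n' Δ' α' a' b' →
      StrAt m Δ' α' a' b') : StrAt m Δ α a b := by
  have V := lv hE L m hS
  obtain ⟨αr, hr1, hr2⟩ := L.r
  obtain ⟨nl, αl, hl1, hl2⟩ := L.l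
  have hΔαr : Δ ≤ αr := le_alpha hE _ _ _ _ _ hr2
  have hααl : α ≤ αl := le_alpha hE _ _ _ _ _ hl2
  have Sr := hS _ _ _ _ _ (Or.inr ⟨rfl, rfl⟩) hr2
  have Sl := hS _ _ _ _ _ (Or.inl (by omega)) hl2
  have last : α ≤ m → ∃ T, P m a b = T ++ [(α, false)] := by
    intro hm
    obtain ⟨T, eT, gT⟩ := Sl.1 hm
    refine ⟨P m a (u 0) ++ (P m (u 0) M ++ invRev T), ?_⟩
    rw [V.j1, V.j2, P_inv m b M, eT]
    simp [invRev]
  refine ⟨fun hm => ?_, fun hm => ?_, fun T s hm e => ?_⟩
  · obtain ⟨T, eT, gT⟩ := Sr.1 hm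
    refine ⟨T ++ P m (u 0) b, by rw [V.j1, eT]; rfl, ?_⟩
    intro p hp
    rcases List.mem_append.1 hp with hp | hp
    · exact gT p hp
    · have := V.geb p hp
      omega
  · obtain ⟨T, eT⟩ := last hm
    exact ⟨T, false, eT⟩
  · by_cases h : α ≤ m
    · obtain ⟨T', eT'⟩ := last h
      rw [e] at eT'
      have := (List.append_inj' eT' rfl).2
      simp only [List.cons.injEq, Prod.mk.injEq, and_true] at this
      exact this.2
    · have h0 : P m (u 0) b = [] := by
        rw [List.eq_nil_iff_forall_not_mem]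
        intro p hp
        have h1 := V.geb p hp
        have h2 := P_le hp
        omega
      rw [V.j1, h0, List.append_nil] at e
      exact Sr.2.2 T s hm e

theorem strAt {E : ℕ → ℕ → ℕ → X → X → Prop} (hE : Post E) (m : ℕ) :
    ∀ K Δ, m + 1 - Δ ≤ K → ∀ n α a b, E n Δ α a b → StrAt m Δ α a b := by
  intro K
  induction K with
  | zero =>
    intro Δ hK n α a b h
    exact strAt_of_lt (by omega) (le_alpha hE _ _ _ _ _ h)
  | succ K ih =>
    intro Δ hK n
    induction n with
    | zero =>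
      intro α a b h
      obtain ⟨h1, h2⟩ := hE.base _ _ _ _ h
      subst h1; subst h2
      by_cases hm : α ≤ m
      · have e := P_shift m α a hm
        refine ⟨fun _ => ⟨[], e, by simp⟩, fun _ => ⟨[], true, e⟩, fun T s hlt eT => ?_⟩
        rw [e] at eT
        have : ([] : Wd) ++ [(α, true)] = T ++ [(m, s)] := eT
        have := (List.append_inj' this rfl).2
        simp only [List.cons.injEq, Prod.mk.injEq, and_true] at this
        omega
      · exact strAt_of_lt (by omega) (le_refl _)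
    | succ n ihn =>
      intro α a b h
      obtain ⟨M, u, w, c, L⟩ := hE.step _ _ _ _ _ h
      apply strAt_step hE L m
      intro n' Δ' α' a' b' hlt h'
      rcases hlt with hlt | ⟨rfl, rfl⟩
      · exact ih Δ' (by omega) n' α' a' b' h'
      · exact ihn α' a' b' h'

theorem strAt' {E : ℕ → ℕ → ℕ → X → X → Prop} (hE : Post E) (m : ℕ) {n Δ α : ℕ} {a b : X}
    (h : E n Δ α a b) : StrAt m Δ α a b :=
  strAt hE m _ Δ le_rfl n α a b h

theorem str : S_STR := fun _ hE _ _ _ _ _ h =>
  ⟨le_alpha hE _ _ _ _ _ h, fun m => strAt' hE m h⟩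

theorem lv' {E : ℕ → ℕ → ℕ → X → X → Prop} (hE : Post E) {n Δ α : ℕ} {a b M : X} {u w : ℕ → X}
    {c : ℕ → ℕ} (L : Lim E n Δ α a b M u w c) (m : ℕ) : LV m α a b M u w c :=
  lv hE L m (fun _ _ _ _ _ _ h => strAt' hE m h)

theorem cat : S_CAT := by
  intro E hE n Δ α a b M u w c L
  have V := fun m => lv' hE L m
  have b1 : Btw a (u 0) b := fun m => (V m).j1
  have b2 : Btw (u 0) M b := fun m => (V m).j2
  have b3 : Btw a M b := (Btw.trans_left b1.symm b2.symm).1.symm
  have b4 : ∀ k, Btw (u k) (u (k + 1)) M := fun k =>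
    Btw.symm (fun m => (V m).chain k)
  have b5 : ∀ k, Btw (u k) (w k) (u (k + 1)) := fun k =>
    Btw.symm (fun m => (V m).blk k)
  have b6 : ∀ k, Btw (u 0) (u k) M := by
    intro k
    induction k with
    | zero => exact Btw.left _ _
    | succ k ih => exact (Btw.trans_right ih (b4 k)).1
  exact ⟨b1, b3, b2, b6, b4, b5⟩

/-- tameness at the two levels `m ≤ m'` -/
def TameAt (m m' : ℕ) (x y : X) : Prop :=
  P m x y = (P m' x y).filter (fun p => decide (p.1 ≤ m))

theorem TameAt.symm {m m' : ℕ} {x y : X} (h : TameAt m m' x y) : TameAt m m' y x := by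
  unfold TameAt at *
  rw [P_inv m x y, h, P_inv m' x y]
  simp only [FreeGroup.invRev, List.filter_reverse, List.filter_map]
  congr 2

theorem TameAt.glue {m m' : ℕ} {x z y : X} (h1 : TameAt m m' x z) (h2 : TameAt m m' z y)
    (hb : Btw x z y) : TameAt m m' x y := by
  unfold TameAt at *
  rw [hb m, hb m', List.filter_append, ← h1, ← h2]

theorem TameAt.nil {m m' : ℕ} (hm : m ≤ m') {x y : X} (h : x m' = y m') : TameAt m m' x y := by
  unfold TameAt
  have h' : x m = y m := by rw [← x.compat hm, ← y.compat hm, h]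
  rw [P_nil.2 h, P_nil.2 h']
  rfl

theorem tameAt_lim {E : ℕ → ℕ → ℕ → X → X → Prop} (hE : Post E) {n Δ α : ℕ} {a b M : X}
    {u w : ℕ → X} {c : ℕ → ℕ} (L : Lim E n Δ α a b M u w c) {m m' : ℕ} (hm : m ≤ m')
    (hS : ∀ n' Δ' α' a' b', (Δ < Δ' ∨ (Δ' = Δ ∧ n' = n)) → E n' Δ' α' a' b' →
      TameAt m m' a' b') : TameAt m m' a b := by
  obtain ⟨c1, c2, c3, c4, c5, c6⟩ := cat E hE n Δ α a b M u w c L
  obtain ⟨αr, hr1, hr2⟩ := L.r
  obtain ⟨nl, αl, hl1, hl2⟩ := L.l
  have hΔαr : Δ ≤ αr := le_alpha hE _ _ _ _ _ hr2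
  have hααl : α ≤ αl := le_alpha hE _ _ _ _ _ hl2
  have hc : ∀ k, α < c k := fun k => by
    have := L.mono.monotone (Nat.zero_le k)
    omega
  have tr := hS _ _ _ _ _ (Or.inr ⟨rfl, rfl⟩) hr2
  have tl' := hS _ _ _ _ _ (Or.inl (by omega)) hl2
  have tb : ∀ k, TameAt m m' (u k) (u (k + 1)) := by
    intro k
    obtain ⟨nF, αF, hF, hH⟩ := L.F k
    have hcF : c k ≤ αF := le_alpha hE _ _ _ _ _ hF
    have tF := hS _ _ _ _ _ (Or.inl (by have := hc k; omega)) hF
    by_cases hcode : code a b k = true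
    · obtain ⟨nH, δ, αH, hδ, hH⟩ := hH hcode
      have tH := hS _ _ _ _ _ (Or.inl (by have := hc k; omega)) hH
      exact TameAt.glue tH.symm tF.symm (c6 k)
    · have hw : w k = u k := L.eqw k (by simpa using hcode)
      rw [hw] at tF
      exact tF.symm
  have tM : ∀ j k, m' < c (k + j) → TameAt m m' (u k) M := by
    intro j
    induction j with
    | zero => intro k hk; exact TameAt.nil hm (L.lim k m' hk)
    | succ j ih =>
      intro k hk
      exact TameAt.glue (tb k) (ih (k + 1) (by rw [Nat.add_right_comm k 1 j]; exact hk)) (c5 k)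
  have tM0 : TameAt m m' (u 0) M := tM (m' + 1) 0 (by
    have := L.mono.le_apply (x := 0 + (m' + 1))
    omega)
  exact TameAt.glue tr (TameAt.glue tM0 tl'.symm c3) c1

theorem tameAt {E : ℕ → ℕ → ℕ → X → X → Prop} (hE : Post E) {m m' : ℕ} (hm : m ≤ m') :
    ∀ K Δ, m' + 1 - Δ ≤ K → ∀ n α a b, E n Δ α a b → TameAt m m' a b := by
  intro K
  induction K with
  | zero =>
    intro Δ hK n α a b h
    exact TameAt.nil hm (hE.low _ _ _ _ _ h m' (by omega))
  | succ K ih =>
    intro Δ hK n
    induction n with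
    | zero =>
      intro α a b h
      by_cases hm' : m' < Δ
      · exact TameAt.nil hm (hE.low _ _ _ _ _ h m' hm')
      obtain ⟨h1, h2⟩ := hE.base _ _ _ _ h
      subst h1; subst h2
      unfold TameAt
      rw [P_shift m' α a (by omega)]
      by_cases h3 : α ≤ m
      · rw [P_shift m α a h3]
        simp [h3]
      · have : P m a (shift α a) = [] := by
          apply P_nil.2
          rw [shift_apply, kill_of, if_neg h3, mul_one]
        rw [this]
        simp [h3]
    | succ n ihn =>
      intro α a b h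
      obtain ⟨M, u, w, c, L⟩ := hE.step _ _ _ _ _ h
      apply tameAt_lim hE L hm
      intro n' Δ' α' a' b' hlt h'
      rcases hlt with hlt | ⟨rfl, rfl⟩
      · exact ih Δ' (by omega) n' α' a' b' h'
      · exact ihn α' a' b' h'

theorem tame : S_TAME := by
  intro E hE
  have key : ∀ n Δ α a b, E n Δ α a b → Tame a b := fun n Δ α a b h m m' hm =>
    tameAt hE hm _ Δ le_rfl n α a b h
  refine ⟨key, ?_⟩
  intro n Δ α a b M u w c L m m' hm
  exact tameAt_lim hE L hm (fun _ _ _ _ _ _ h => key _ _ _ _ _ h m m' hm)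

end Pool.Agent.W486.AG
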