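import Pool.Agent.W486.AG.Stm

/-!
Basic lemmas on the words `P m x y`, on `Btw`, `Tame`, `OC` and `Cr`.
-/

set_option autoImplicit false

namespace Pool.Agent.W486.AG

open FreeGroup

theorem P_mk (m : ℕ) (x y : X) : FreeGroup.mk (P m x y) = (x m)⁻¹ * y m := FreeGroup.mk_toWord

theorem P_red (m : ℕ) (x y : X) : IsReduced (P m x y) := FreeGroup.isReduced_toWord

/-- sublists in one piece of reduced words are reduced -/
theorem red_sub {L₁ L₂ : Wd} (h : IsReduced L₂) (h' : ∃ s t, s ++ L₁ ++ t = L₂) :
    IsReduced L₁ := by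
  obtain ⟨s, t, rfl⟩ := h'
  exact (List.isChain_append.1 (List.isChain_append.1 h).1).2.1

theorem P_self (m : ℕ) (x : X) : P m x x = [] := by simp [P]

theorem P_nil {m : ℕ} {x y : X} : P m x y = [] ↔ x m = y m := by
  unfold P
  rw [FreeGroup.toWord_eq_nil_iff, inv_mul_eq_one]

theorem P_inv (m : ℕ) (x y : X) : P m y x = invRev (P m x y) := by
  unfold P
  rw [← FreeGroup.toWord_inv]
  simp

theorem P_length_comm (m : ℕ) (x y : X) : (P m y x).length = (P m x y).length := by
  rw [P_inv]; exact FreeGroup.invRev_length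

/-- a reduced word with the right value is `P` -/
theorem P_eq_of_mk {m : ℕ} {x y : X} {L : Wd} (hL : IsReduced L)
    (h : FreeGroup.mk L = (x m)⁻¹ * y m) : P m x y = L := by
  unfold P
  rw [← h, FreeGroup.toWord_mk]
  exact hL.reduce_eq

theorem P_append {m : ℕ} {x y z : X} (h : IsReduced (P m x y ++ P m y z)) :
    P m x z = P m x y ++ P m y z := by
  apply P_eq_of_mk h
  rw [← FreeGroup.mul_mk, P_mk, P_mk]
  group

theorem P_suffix {m : ℕ} {x y h : X} {B : Wd} (e : P m x y = P m x h ++ B) : P m h y = B := by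
  apply P_eq_of_mk
  · have := P_red m x y
    rw [e] at this
    exact red_sub this ⟨P m x h, [], by simp⟩
  · have h2 := P_mk m x y
    rw [e, ← FreeGroup.mul_mk, P_mk] at h2
    have : FreeGroup.mk B = ((x m)⁻¹ * h m)⁻¹ * ((x m)⁻¹ * y m) := by rw [← h2]; group
    rw [this]; group

theorem P_prefix {m : ℕ} {x y h : X} {A : Wd} (e : P m x y = A ++ P m h y) : P m x h = A := by
  apply P_eq_of_mk
  · have := P_red m x y
    rw [e] at this
    exact red_sub this ⟨[], P m h y, by simp⟩
  · have h2 := P_mk m x y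
    rw [e, ← FreeGroup.mul_mk, P_mk] at h2
    have : FreeGroup.mk A = ((x m)⁻¹ * y m) * ((h m)⁻¹ * y m)⁻¹ := by rw [← h2]; group
    rw [this]; group

/-- the value at level `m` is determined by the word -/
theorem P_inj_right {m : ℕ} {x y z : X} (h : P m x y = P m x z) : y m = z m := by
  have h1 := P_mk m x y
  rw [h, P_mk] at h1
  exact (mul_left_cancel h1).symm

theorem P_congr {m : ℕ} {x x' y y' : X} (h : x m = x' m) (h' : y m = y' m) :
    P m x y = P m x' y' := by
  unfold P; rw [h, h']

/-! killing letters -/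

theorem kill_mk (m : ℕ) (L : Wd) :
    kill m (FreeGroup.mk L) = FreeGroup.mk (L.filter (fun p => decide (p.1 ≤ m))) := by
  induction L with
  | nil => simp [← FreeGroup.one_eq_mk]
  | cons p L ih =>
    have : FreeGroup.mk (p :: L) = FreeGroup.mk [p] * FreeGroup.mk L := by
      rw [FreeGroup.mul_mk]; rfl
    rw [this, _root_.map_mul, ih]
    rcases p with ⟨i, s⟩
    by_cases h : i ≤ m
    · rw [List.filter_cons_of_pos (by simpa using h)]
      have : FreeGroup.mk ((i, s) :: List.filter (fun p => decide (p.1 ≤ m)) L) =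
        FreeGroup.mk [(i, s)] * FreeGroup.mk (List.filter (fun p => decide (p.1 ≤ m)) L) := by
        rw [FreeGroup.mul_mk]; rfl
      rw [this]
      congr 1
      cases s
      · have : FreeGroup.mk [(i, false)] = (FreeGroup.of i)⁻¹ := rfl
        rw [this, _root_.map_inv, kill_of, if_pos h]
      · have : FreeGroup.mk [(i, true)] = FreeGroup.of i := rfl
        rw [this, kill_of, if_pos h]
    · rw [List.filter_cons_of_neg (by simpa using h)]
      have : kill m (FreeGroup.mk [(i, s)]) = 1 := by
        cases s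
        · have : FreeGroup.mk [(i, false)] = (FreeGroup.of i)⁻¹ := rfl
          rw [this, _root_.map_inv, kill_of, if_neg h]; simp
        · have : FreeGroup.mk [(i, true)] = FreeGroup.of i := rfl
          rw [this, kill_of, if_neg h]
      rw [this, one_mul]

theorem P_filter {m m' : ℕ} (h : m ≤ m') (x y : X) :
    P m x y = reduce ((P m' x y).filter (fun p => decide (p.1 ≤ m))) := by
  have h1 : kill m ((x m')⁻¹ * y m') = (x m)⁻¹ * y m := by
    rw [_root_.map_mul, _root_.map_inv, x.compat h, y.compat h]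
  have h2 : (x m)⁻¹ * y m =
      FreeGroup.mk ((P m' x y).filter (fun p => decide (p.1 ≤ m))) := by
    rw [← kill_mk, P_mk, h1]
  conv_lhs => unfold P
  rw [h2, FreeGroup.toWord_mk]

theorem P_filter_of_red {m m' : ℕ} (h : m ≤ m') (x y : X)
    (hr : IsReduced ((P m' x y).filter (fun p => decide (p.1 ≤ m)))) :
    P m x y = (P m' x y).filter (fun p => decide (p.1 ≤ m)) := by
  rw [P_filter h, hr.reduce_eq]

/-- the letters of `P m x y` have index at most `m` -/
theorem P_le {m : ℕ} {x y : X} {p : ℕ × Bool} (hp : p ∈ P m x y) : p.1 ≤ m := by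
  have h := P_filter (le_refl m) x y
  have h2 : ∀ q ∈ reduce ((P m x y).filter (fun p => decide (p.1 ≤ m))), q.1 ≤ m := by
    intro q hq
    have hs : List.Sublist (reduce ((P m x y).filter (fun p => decide (p.1 ≤ m))))
        ((P m x y).filter (fun p => decide (p.1 ≤ m))) :=
      (FreeGroup.reduce.red (L := (P m x y).filter (fun p => decide (p.1 ≤ m)))).sublist
    have := hs.subset hq
    simpa using (List.mem_filter.1 this).2
  rw [← h] at h2
  exact h2 p hp

/-- if all letters of the word at level `m'` have index `> m`, the points agree at level `m` -/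
theorem eq_of_P_gt {m m' : ℕ} (h : m ≤ m') {x y : X} (hg : ∀ p ∈ P m' x y, m < p.1) :
    x m = y m := by
  have : (P m' x y).filter (fun p => decide (p.1 ≤ m)) = [] := by
    rw [List.filter_eq_nil_iff]
    intro p hp
    have := hg p hp
    simp only [decide_eq_true_eq]
    omega
  have h2 := P_filter h x y
  rw [this] at h2
  exact P_nil.1 (by rw [h2]; rfl)

theorem eq_of_frequently {x y : X} (h : ∀ N, ∃ m, N ≤ m ∧ x m = y m) : x = y := by
  apply X.ext
  intro m
  obtain ⟨m', hm, e⟩ := h m
  rw [← x.compat hm, ← y.compat hm, e]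

/-! reducedness of concatenations -/

theorem isReduced_append {L₁ L₂ : Wd} (h1 : IsReduced L₁) (h2 : IsReduced L₂)
    (h : ∀ p ∈ L₁.getLast?, ∀ q ∈ L₂.head?, p.1 = q.1 → p.2 = q.2) : IsReduced (L₁ ++ L₂) :=
  List.isChain_append.2 ⟨h1, h2, h⟩

theorem isReduced_append_of_ne {L₁ L₂ : Wd} (h1 : IsReduced L₁) (h2 : IsReduced L₂)
    (h : ∀ p ∈ L₁.getLast?, ∀ q ∈ L₂.head?, p.1 ≠ q.1) : IsReduced (L₁ ++ L₂) :=
  isReduced_append h1 h2 (fun p hp q hq e => absurd e (h p hp q hq))

/-! `Btw` -/

theorem Btw.symm {x z y : X} (h : Btw x z y) : Btw y z x := by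
  intro m
  rw [P_inv m x y, h m, P_inv m x z, P_inv m z y]
  simp [FreeGroup.invRev, List.map_append, List.reverse_append]

theorem Btw.left (x y : X) : Btw x x y := by intro m; simp [P_self]

theorem Btw.right (x y : X) : Btw x y y := by intro m; simp [P_self]

/-- `x ... v ... z ... y` -/
theorem Btw.trans_left {x v z y : X} (h : Btw x z y) (h' : Btw x v z) : Btw x v y ∧ Btw v z y := by
  have key : ∀ m, P m v y = P m v z ++ P m z y := by
    intro m
    apply P_suffix (x := x)
    rw [h m, h' m, List.append_assoc]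
  refine ⟨fun m => ?_, key⟩
  rw [key m, h m, h' m, List.append_assoc]

/-- `x ... z ... v ... y` -/
theorem Btw.trans_right {x v z y : X} (h : Btw x z y) (h' : Btw z v y) :
    Btw x v y ∧ Btw x z v := by
  have key : ∀ m, P m x v = P m x z ++ P m z v := by
    intro m
    apply P_prefix (y := y)
    rw [h m, h' m, List.append_assoc]
  refine ⟨fun m => ?_, key⟩
  rw [key m, h m, h' m, List.append_assoc]

theorem Btw.length_le {x z y : X} (h : Btw x z y) (m : ℕ) :
    (P m x y).length = (P m x z).length + (P m z y).length := by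
  rw [h m, List.length_append]

/-! `Tame` -/

theorem Tame.symm {x y : X} (h : Tame x y) : Tame y x := by
  intro m m' hm
  rw [P_inv m x y, h m m' hm, P_inv m' x y]
  simp only [FreeGroup.invRev, List.filter_reverse, List.filter_map]
  congr 2

theorem Tame.self (x : X) : Tame x x := by
  intro m m' _
  simp [P_self]

theorem Tame.sub {x z y : X} (h : Tame x y) (hb : Btw x z y) : Tame x z ∧ Tame z y := by
  have key : ∀ m m', m ≤ m' →
      IsReduced ((P m' x z).filter (fun p => decide (p.1 ≤ m)) ++
        (P m' z y).filter (fun p => decide (p.1 ≤ m))) := by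
    intro m m' hm
    have h1 := h m m' hm
    rw [hb m', List.filter_append] at h1
    rw [← h1]
    exact P_red m x y
  constructor
  · intro m m' hm
    exact P_filter_of_red hm _ _ (red_sub (key m m' hm) ⟨[], _, by simp; rfl⟩)
  · intro m m' hm
    exact P_filter_of_red hm _ _ (red_sub (key m m' hm) ⟨_, [], by simp; rfl⟩)

/-- gluing of tame pairs -/
theorem Tame.glue {x z y : X} (h1 : Tame x z) (h2 : Tame z y) (hb : Btw x z y) : Tame x y := by
  intro m m' hm
  rw [hb m, hb m', List.filter_append, ← h1 m m' hm, ← h2 m m' hm]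

/-! Crossing -/

theorem OC.btw_left {m c : ℕ} {h x z y : X} (hb : P m x y = P m x z ++ P m z y)
    (ho : OC m c h x z) : OC m c h x y := by
  obtain ⟨B, hB⟩ := ho
  refine ⟨B ++ P m z y, ?_⟩
  rw [hb, hB]; simp

theorem OC.btw_right {m c : ℕ} {h x z y : X} (hb : P m x y = P m x z ++ P m z y)
    (ho : OC m c h z y) : OC m c h x y := by
  obtain ⟨B, hB⟩ := ho
  have : P m x h = P m x z ++ P m z h := by
    apply P_eq_of_mk
    · have := P_red m x y
      rw [hb, hB] at this
      exact red_sub this ⟨[], (c, true) :: B, by simp⟩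
    · rw [← FreeGroup.mul_mk, P_mk, P_mk]; group
  refine ⟨B, ?_⟩
  rw [hb, hB, this]; simp

theorem OC.split {m c : ℕ} {h x z y : X} (hb : P m x y = P m x z ++ P m z y)
    (ho : OC m c h x y) : OC m c h x z ∨ OC m c h z y := by
  obtain ⟨B, hB⟩ := ho
  rw [hb] at hB
  rcases List.append_eq_append_iff.1 hB with ⟨C, hC1, hC2⟩ | ⟨C, hC1, hC2⟩
  · right
    have : P m z h = C := P_suffix hC1
    exact ⟨B, by rw [hC2, this]⟩
  · rcases C with _ | ⟨q, C⟩
    · right
      simp only [List.append_nil] at hC1
      simp only [List.nil_append] at hC2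
      have : P m z h = [] := by
        apply P_suffix (x := x)
        rw [hC1]; simp
      exact ⟨B, by rw [← hC2, this]; rfl⟩
    · left
      simp only [List.cons_append, List.cons.injEq] at hC2
      exact ⟨C, by rw [hC1, ← hC2.1]⟩

/-- crossing goes down along tame pairs -/
theorem OC.down {m m' c : ℕ} {h x y : X} (ht : Tame x y) (hm : m ≤ m') (hc : c ≤ m)
    (ho : OC m' c h x y) : OC m c h x y := by
  obtain ⟨B, hB⟩ := ho
  have h1 := ht m m' hm
  rw [hB, List.filter_append, List.filter_cons_of_pos (by simpa using hc)] at h1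
  have h2 : P m x h = (P m' x h).filter (fun p => decide (p.1 ≤ m)) := by
    apply P_filter_of_red hm
    have := P_red m x y
    rw [h1] at this
    exact red_sub this ⟨[], _, by simp; rfl⟩
  exact ⟨B.filter (fun p => decide (p.1 ≤ m)), by rw [h2]; exact h1⟩

theorem Cr.of_frequently {c : ℕ} {h x y : X} (ht : Tame x y)
    (hf : ∀ N, ∃ m, N ≤ m ∧ OC m c h x y) : Cr c h x y := by
  intro m hm
  obtain ⟨m', hm', ho⟩ := hf m
  exact ho.down ht hm' hm

theorem Cr.split {c : ℕ} {h x z y : X} (hc : Cr c h x y) (hb : Btw x z y) (ht : Tame x y) :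
    Cr c h x z ∨ Cr c h z y := by
  obtain ⟨t1, t2⟩ := ht.sub hb
  by_cases h1 : ∀ N, ∃ m, N ≤ m ∧ OC m c h x z
  · exact Or.inl (Cr.of_frequently t1 h1)
  · right
    push Not at h1
    obtain ⟨N, hN⟩ := h1
    apply Cr.of_frequently t2
    intro N'
    refine ⟨max (max N N') c, le_trans (le_max_right N N') (le_max_left _ _), ?_⟩
    rcases (hc (max (max N N') c) (le_max_right _ _)).split (hb _) with h2 | h2
    · exact absurd h2 (hN _ (le_trans (le_max_left N N') (le_max_left _ _)))
    · exact h2

theorem Cr.left {c : ℕ} {h x z y : X} (hc : Cr c h x z) (hb : Btw x z y) : Cr c h x y :=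
  fun m hm => (hc m hm).btw_left (hb m)

theorem Cr.right {c : ℕ} {h x z y : X} (hc : Cr c h z y) (hb : Btw x z y) : Cr c h x y :=
  fun m hm => (hc m hm).btw_right (hb m)

/-- the point `h` lies on an interval which crosses `h → h γ_c` -/
theorem OC.mem {m c : ℕ} {h x y : X} (ho : OC m c h x y) : P m x y = P m x h ++ P m h y := by
  obtain ⟨B, hB⟩ := ho
  rw [P_suffix hB, hB]

theorem OC.next {m c : ℕ} {h x y : X} (ho : OC m c h x y) : ∃ B, P m h y = (c, true) :: B := by
  obtain ⟨B, hB⟩ := ho
  exact ⟨B, P_suffix hB⟩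

end Pool.Agent.W486.AG
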